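import Pool.Agent.RX.RCE.DnI

/-! The bound of the density rates from polynomial inequalities (MP_73ccd0_lc, route M). -/

set_option autoImplicit false
set_option linter.unusedSectionVars false

namespace Pool.Agent.RX.RCE

open Set Pool.Agent.RX.RCM9 Pool.Agent.RX.RCM9.Bern Pool.Agent.RX.RCM9.Pk

namespace TDat

variable (b0 b1 : List ℚ) (t : TDat)

def bqE : E := (1 + t.tE) * pe t.bq t.tE
def hb1 : E := t.bqE - 1
def hv0 : E := t.bqE - pe b0 t.tE
def hv1 : E := t.bqE - 1 - (pe b0 t.tE - 1) * E.num 1 2 - pe b1 t.tE * E.num 1 2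
def hv2 : E := t.bqE - 1 - pe b1 t.tE * E.num 1 2

structure BPos : Prop where
  one : N4 t.hb1
  v0 : N4 (t.hv0 b0)
  v1 : N4 (t.hv1 b0 b1)
  v2 : N4 (t.hv2 b1)

variable {b0 b1 : List ℚ} {t : TDat}

theorem BPos.ok (h : t.BPos b0 b1) (hb : 0 ≤ t.bt) :
    Pool.Agent.RX.RCN.K.BqOk (pv b0) (pv b1) (t.bt : ℝ) (pv t.bq) := by
  have b0' : (0 : ℝ) ≤ (t.bt : ℝ) := by exact_mod_cast hb
  refine ⟨fun r hr => ?_, fun r hr => ?_, fun r hr => ?_, fun r hr => ?_⟩ <;>
    obtain ⟨T, hT, rfl⟩ := map_mem b0' hr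
  · have h1 := h.one.t hT
    simp only [hb1, bqE, val_sub, val_mul, val_add, val_pe, val_tE, val_one] at h1
    linarith
  · have h1 := h.v0.t hT
    simp only [hv0, bqE, val_sub, val_mul, val_add, val_pe, val_tE, val_one] at h1
    linarith
  · have h1 := h.v1.t hT
    simp only [hv1, bqE, val_sub, val_mul, val_add, val_pe, val_tE, val_one, val_num] at h1
    push_cast at h1
    linarith
  · have h1 := h.v2.t hT
    simp only [hv2, bqE, val_sub, val_mul, val_add, val_pe, val_tE, val_one, val_num] at h1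
    push_cast at h1
    linarith

end TDat

end Pool.Agent.RX.RCE
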