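import Pool.Agent.RX.RCM.EpC

/-! The clock of the density errors from a bound of the rates (MP_73ccd0_lc, route M). -/

set_option autoImplicit false

namespace Pool.Agent.RX.RCN.K

open Set Finset MeasureTheory Pool.Agent.RX.RCRSHalf Pool.Agent.RX.RCG Pool.Agent.RX.RCG.Ct
open Pool.Agent.RX.RCN Pool.Agent.RX.RCM

variable {Z : Hzd} {B : ℝ → ℝ → ℝ} {s : RCM.Us} {C mb : ℝ → ℝ} {sl : ℝ → ℝ → ℝ}

/-- the clock bounds the exponents -/
theorem clt_of (hZ : Z.Ok sl) (dC : ∀ r ∈ Icc (0 : ℝ) bt, HasDerivAt C (mb r) r)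
    (m1 : ∀ r ∈ Icc (0 : ℝ) bt, 1 ≤ mb r)
    (hmb : ∀ y ∈ Icc (0 : ℝ) 1, ∀ r ∈ Icc (0 : ℝ) bt, Z.rr y r ≤ mb r) {r τ : ℝ} (hr : 0 ≤ r)
    (hrτ : r ≤ τ) (hτ : τ ≤ bt) : Clt Z r τ (C τ - C r) := by
  have hm : ∀ z ∈ Icc r τ, z ∈ Icc (0 : ℝ) bt := fun z hz => ⟨hr.trans hz.1, hz.2.trans hτ⟩
  have mono : ∀ (f f' : ℝ → ℝ), (∀ z ∈ Icc r τ, HasDerivAt f (f' z) z) →
      (∀ z ∈ Icc r τ, 0 ≤ f' z) → f r ≤ f τ := by
    intro f f' hd hp
    have anti : MonotoneOn f (Icc r τ) := by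
      refine monotoneOn_of_deriv_nonneg (convex_Icc r τ) (fun z hz =>
        (hd z hz).continuousAt.continuousWithinAt) (fun z hz => ?_) fun z hz => ?_
      · rw [interior_Icc] at hz
        exact (hd z (Ioo_subset_Icc_self hz)).differentiableAt.differentiableWithinAt
      · rw [interior_Icc] at hz
        have hz' := Ioo_subset_Icc_self hz
        rw [(hd z hz').deriv]
        exact hp z hz'
    exact anti ⟨le_rfl, hrτ⟩ ⟨hrτ, le_rfl⟩ hrτ
  refine ⟨fun y hy => ?_, ?_⟩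
  · have h := mono (fun z => Real.log (1 - y * Z.S y z) + y * C z)
      (fun z => (0 - y * Z.E y z) / (1 - y * Z.S y z) + y * mb z) (fun z hz => by
        have d1 := (((hZ.d y hy z (hm z hz)).const_mul y).const_sub 1).log
          (hZ.den y hy z (hm z hz)).ne'
        have d2 := (dC z (hm z hz)).const_mul y
        refine (d1.add d2).congr_deriv ?_
        rw [zero_sub]) (fun z hz => by
        have h1 := hmb y hy z (hm z hz)
        have h2 := mul_le_mul_of_nonneg_left h1 hy.1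
        unfold Hzd.rr at h2
        have e : (0 - y * Z.E y z) / (1 - y * Z.S y z) = -(y * (Z.E y z / (1 - y * Z.S y z))) := by
          rw [zero_sub, neg_div, mul_div_assoc]
        rw [e]
        linarith)
    linarith
  · have h := mono (fun z => C z - z) (fun z => mb z - 1) (fun z hz =>
      (dC z (hm z hz)).sub (hasDerivAt_id' z)) (fun z hz => by
        have := m1 z (hm z hz)
        linarith)
    linarith

/-- **the clock** -/
theorem ck_of (hZ : Z.Ok sl) (dC : ∀ r ∈ Icc (0 : ℝ) bt, HasDerivAt C (mb r) r)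
    (cm : ContinuousOn mb (Icc 0 bt)) (m1 : ∀ r ∈ Icc (0 : ℝ) bt, 1 ≤ mb r)
    (hmb : ∀ y ∈ Icc (0 : ℝ) 1, ∀ r ∈ Icc (0 : ℝ) bt, Z.rr y r ≤ mb r) {tU : ℝ} (tU1 : tU ≤ bt)
    (hU : C tU - C 0 ≤ s.U0) (hth : ∀ u, s.th u = u)
    (hb : ∀ r t, 0 ≤ r → r ≤ t → t ≤ tU → B t r ≤ s.be (C t - C r)) :
    ∀ τ ∈ Icc 0 tU, Ck Z B s C mb τ := by
  intro τ hτ
  refine { τ0 := hτ.1, τ1 := hτ.2.trans tU1, dC := dC, cm := cm, m1 := m1, hmb := hmb, cU := ?_,
           ct := fun r hr => ?_, cb := fun r hr => hb r τ hr.1 hr.2 hτ.2 }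
  · have h := (clt_of hZ dC m1 hmb hτ.1 hτ.2 tU1).pe
    linarith [hτ.2]
  · rw [hth]
    exact clt_of hZ dC m1 hmb hr.1 hr.2 (hτ.2.trans tU1)

end Pool.Agent.RX.RCN.K
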