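import Pool.Agent.RX.RCM.BEps

/-! Part B with two phases: the error after the time `s` and before it are treated separately
(MP_73ccd0_lc, route M). -/

namespace Pool.Agent.RX.RCE

open Set Finset Pool.Agent.RX.RCRSHalf Pool.Agent.RX.RCRSGen Pool.Agent.RX.RCG Pool.Agent.RX.RCM

set_option linter.unusedSectionVars false

variable {V : Type*} [Fintype V] [DecidableEq V]
variable {h : ℝ → V → V → ℝ} {H : V → V → ℝ → ℝ}

/-- Part B with two phases. -/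
theorem dens_clo2 (hh : Haz h H) {a b c : V} (hab : a ≠ b) (hac : a ≠ c) (hbc : b ≠ c) {s t : ℝ}
    (hs : 0 ≤ s) (hst : s ≤ t) (ht : t ≤ 1)
    {m1 m2 ν : V → ℝ → ℝ} {E1 E1' E2 E2' : ℝ → ℝ} (hE1 : ∀ r ∈ Icc 0 s, HasDerivAt E1 (E1' r) r)
    (hE2 : ∀ r ∈ Icc s t, HasDerivAt E2 (E2' r) r)
    (hF1 : ∀ r ∈ Icc 0 s,
      h r a b * (pr (lw h ∅ r) {a, b} / pr (lw h ∅ r) {a}) +
        h r a c * (pr (lw h ∅ r) {a, c} / pr (lw h ∅ r) {a}) +
      ∑ d ∈ Finset.univ \ {a, b, c},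
      (h r a d * (m1 d r * (pr (lw h ∅ r) {a, d} / pr (lw h ∅ r) {a})) +
        (h r b d + h r c d) *
          (m2 d r * (pr (lw h ∅ r) {b, c, d} / pr (lw h ∅ r) {b, c}))) ≤ E1' r)
    (hF2 : ∀ r ∈ Icc s t,
      h r a b * (pr (lw h ∅ r) {a, b} / pr (lw h ∅ r) {a}) +
        h r a c * (pr (lw h ∅ r) {a, c} / pr (lw h ∅ r) {a}) +
        ∑ d ∈ Finset.univ \ {a, b, c}, h r a d * (ν d r * (pr (lw h ∅ r) {a, d} / pr (lw h ∅ r) {a}))
        ≤ E2' r)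
    (h1 : ∀ r ∈ Icc 0 s, ∀ d ∈ Finset.univ \ {a, b, c}, h r a d ≠ 0 → ∃ K1 K2,
      CloD h r r {a, b} {a, b} c d K1 ∧ CloD h r r {a} {a} b d K2 ∧ (1 - m1 d r) * (K1 * K2) ≤ 1)
    (h2 : ∀ r ∈ Icc 0 s, ∀ d ∈ Finset.univ \ {a, b, c}, h r b d + h r c d ≠ 0 → ∃ K3,
      CloD h r r {b, c} {b, c} a d K3 ∧ (1 - m2 d r) * K3 ≤ 1)
    (h3 : ∀ r ∈ Icc s t, ∀ d ∈ Finset.univ \ {a, b, c}, h r a d ≠ 0 → ∃ K4 K5,
      CloD h r s {a} {a} d b K4 ∧ CloD h r s {a} {a, b} d c K5 ∧ (1 - ν d r) * (K4 * K5) ≤ 1)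
    {R : Finset V → ℝ → ℝ} (hR : IsEv h (fun r z => h r a z) (fun _ => 0) (fun _ => 0) t R)
    (hR1 : ∀ F, R F t = 1) :
    ex (lw h ∅ s) {a, b, c} (fun F => R F s) ≤
      pr (lw h ∅ t) {a} * (pr (lw h ∅ s) {b, c} * Real.exp ((E1 s - E1 0) + (E2 t - E2 s))) := by
  have hm1 : ∀ r ∈ Icc 0 s, r ∈ Icc (0 : ℝ) 1 := fun r hr =>
    ⟨hr.1, hr.2.trans (hst.trans ht)⟩
  have hm2 : ∀ r ∈ Icc s t, r ∈ Icc (0 : ℝ) 1 := fun r hr => ⟨hs.trans hr.1, hr.2.trans ht⟩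
  have hpos : ∀ r ∈ Icc 0 s, 0 < pr (lw h ∅ r) {a, b, c} := fun r hr => pr_pos' hh (hm1 r hr) _
  have hpa : ∀ r ∈ Icc s t, 0 < pr (lw h ∅ r) {a} := fun r hr => pr_pos' hh (hm2 r hr) _
  -- first phase
  have hG1 : ∀ r ∈ Icc 0 s,
      h r a b * (pr (lw h ∅ r) {a, b} / pr (lw h ∅ r) {a}) +
        h r a c * (pr (lw h ∅ r) {a, c} / pr (lw h ∅ r) {a}) +
      ∑ d ∈ Finset.univ \ {a, b, c},
      (h r a d * (pr (lw h ∅ r) {a, d} / pr (lw h ∅ r) {a} -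
          pr (lw h ∅ r) {a, b, c, d} / pr (lw h ∅ r) {a, b, c}) +
        (h r b d + h r c d) *
          (pr (lw h ∅ r) {b, c, d} / pr (lw h ∅ r) {b, c} -
            pr (lw h ∅ r) {a, b, c, d} / pr (lw h ∅ r) {a, b, c})) ≤ E1' r := by
    intro r hr
    refine le_trans ?_ (hF1 r hr)
    have p := fun W : Finset V => pr_pos' hh (hm1 r hr) W
    refine add_le_add le_rfl (Finset.sum_le_sum fun d hd => add_le_add ?_ ?_)
    · by_cases h0 : h r a d = 0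
      · rw [h0]; simp
      refine mul_le_mul_of_nonneg_left ?_ (hh.nonneg r a d)
      obtain ⟨K1, K2, c1, c2, hK⟩ := h1 r hr d hd h0
      have e := eps_a hh (hm1 r hr) hab hac hbc c1 c2
      have e' := one_sub_mul_le (mul_pos (p _) (p _)).le (mul_pos (p _) (p _)).le e hK
      have e2 : (1 - m1 d r) * (pr (lw h ∅ r) {a, d} / pr (lw h ∅ r) {a}) ≤
          pr (lw h ∅ r) {a, b, c, d} / pr (lw h ∅ r) {a, b, c} := by
        rw [← mul_div_assoc, div_le_div_iff₀ (p _) (p _)]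
        linarith
      linarith
    · by_cases h0 : h r b d + h r c d = 0
      · rw [h0]; simp
      refine mul_le_mul_of_nonneg_left ?_ (add_nonneg (hh.nonneg r b d) (hh.nonneg r c d))
      obtain ⟨K3, c3, hK⟩ := h2 r hr d hd h0
      have e := eps_bc hh (hm1 r hr) hab hac c3
      have e' := one_sub_mul_le (mul_pos (p _) (p _)).le (mul_pos (p _) (p _)).le e hK
      have e2 : (1 - m2 d r) * (pr (lw h ∅ r) {b, c, d} / pr (lw h ∅ r) {b, c}) ≤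
          pr (lw h ∅ r) {a, b, c, d} / pr (lw h ∅ r) {a, b, c} := by
        rw [← mul_div_assoc, div_le_div_iff₀ (p _) (p _)]
        linarith
      linarith
  have hν : ∀ r ∈ Icc s t, ∀ d ∈ Finset.univ \ {a, b, c}, h r a d ≠ 0 →
      (1 - ν d r) * (dn h s (lw h ∅ s) {b, c} {a} (r - s) * pr (lw h ∅ r) {a, d}) ≤
        dn h s (lw h ∅ s) {b, c} {a, d} (r - s) * pr (lw h ∅ r) {a} := by
    intro r hr d hd hd0
    obtain ⟨K4, K5, c4, c5, hK⟩ := h3 r hr d hd hd0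
    simp only [Finset.mem_sdiff, Finset.mem_univ, true_and, Finset.mem_insert, not_or,
      Finset.mem_singleton] at hd
    have hμ := fun F => (hh.lw (∅ : Finset V)).nonneg F s ⟨hs, hst.trans ht⟩
    have hrs : r - s ∈ Icc (0 : ℝ) 1 := ⟨by linarith [hr.1], by linarith [hr.2]⟩
    exact one_sub_mul_le (mul_nonneg (dn_nonneg hh hμ _ _ hrs) (pr_pos' hh (hm2 r hr) _).le)
      (mul_nonneg (dn_nonneg hh hμ _ _ hrs) (pr_pos' hh (hm2 r hr) _).le)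
      (eps_nu hh hs hr.1 (hr.2.trans ht) hab hac hd.1 hd.2.1 hd.2.2 c4 c5) hK
  have hR' : IsEv h (fun r z => ∑ w ∈ ({a} : Finset V), h r w z) (fun _ => 0) (fun _ => 0) t R := by
    simpa using hR
  have hd : Disjoint ({b, c} : Finset V) {a} := by
    rw [Finset.disjoint_singleton_right]; simp [hab, hac]
  have e1 := dn_eq hh hs hst ht (y := lw h ∅ s) hd hR' hR1
  have e2 : HW H {a} t - HW H {a} s = 0 := by
    unfold HW
    simp [hh.Hdiag]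
  rw [e2, neg_zero, Real.exp_zero, one_mul] at e1
  have e0 : ({b, c} : Finset V) ∪ {a} = {a, b, c} := by
    ext z; simp only [Finset.mem_union, Finset.mem_insert, Finset.mem_singleton]; tauto
  rw [e0] at e1
  have k1 := tau_exp hh hab hac hbc ⟨hs, hst.trans ht⟩ hpos hE1 hG1
  have k2 := dens_le hh hab hac hbc hs hst ht hpa hE2 hF2 hν
  rw [e1] at k2
  have hps := hpa s ⟨le_rfl, hst⟩
  have hpt : 0 ≤ pr (lw h ∅ t) {a} := (hpa t ⟨hst, le_rfl⟩).le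
  have k3 : pr (lw h ∅ t) {a} * (pr (lw h ∅ s) {a, b, c} * Real.exp (E2 t - E2 s)) ≤
      pr (lw h ∅ t) {a} * ((pr (lw h ∅ s) {b, c} * pr (lw h ∅ s) {a} * Real.exp (E1 s - E1 0)) *
        Real.exp (E2 t - E2 s)) :=
    mul_le_mul_of_nonneg_left (mul_le_mul_of_nonneg_right k1 (Real.exp_pos _).le) hpt
  have k4 : Real.exp ((E1 s - E1 0) + (E2 t - E2 s))
      = Real.exp (E1 s - E1 0) * Real.exp (E2 t - E2 s) := Real.exp_add _ _
  have k5 := k2.trans k3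
  refine le_of_mul_le_mul_right (k5.trans (le_of_eq ?_)) hps
  rw [k4]
  ring

end Pool.Agent.RX.RCE
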