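import Pool.Agent.RX.RCE.TDat
import Pool.Agent.RX.RCM.EpK
import Pool.Agent.RX.RCN.KleC
import Pool.Agent.RX.RCN.LamD

/-! The density bound of the certified process with polynomial majorants of the density errors
(MP_73ccd0_lc, route M). -/

set_option autoImplicit false
set_option linter.unusedSectionVars false

namespace Pool.Agent.RX.RCN.K

open Set Finset MeasureTheory Pool.Agent.RX.RCRSHalf Pool.Agent.RX.RCG Pool.Agent.RX.RCG.Ct
open Pool.Agent.RX.RCN Pool.Agent.RX.RCE Pool.Agent.RX.RCM Pool.Agent.RX.RCM9 Pool.Agent.RX.RCM9.Pk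

/-- `bq` bounds the density rates -/
structure BqOk (b0 b1 : ℝ → ℝ) (bt : ℝ) (bq : ℝ → ℝ) : Prop where
  one : ∀ r ∈ Icc 0 bt, 1 ≤ (1 + r) * bq r
  v0 : ∀ r ∈ Icc 0 bt, b0 r ≤ (1 + r) * bq r
  v1 : ∀ r ∈ Icc 0 bt, 1 + (b0 r - 1) / 2 + b1 r / 2 ≤ (1 + r) * bq r
  v2 : ∀ r ∈ Icc 0 bt, 1 + b1 r / 2 ≤ (1 + r) * bq r

theorem BqOk.le {b0 b1 : ℝ → ℝ} {bt : ℝ} {bq : ℝ → ℝ} (h : BqOk b0 b1 bt bq) {y r : ℝ}
    (hy : y ∈ Icc (0 : ℝ) 1) (hr : r ∈ Icc 0 bt) :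
    1 + (1 - y) * (b0 r - 1) + eta y * b1 r ≤ (1 + r) * bq r := by
  have h0 := h.v0 r hr
  have h1 := h.v1 r hr
  have h2 := h.v2 r hr
  rcases le_total y (1 / 2) with hc | hc
  · have e : eta y = y := min_eq_left hc
    rw [e]
    have i1 := mul_le_mul_of_nonneg_left h0 (show 0 ≤ 1 - 2 * y by linarith)
    have i2 := mul_le_mul_of_nonneg_left h1 (show 0 ≤ 2 * y by linarith [hy.1])
    linarith
  · have e : eta y = 1 / 2 := min_eq_right hc
    rw [e]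
    have i1 := mul_le_mul_of_nonneg_left h1 (show 0 ≤ 2 * (1 - y) by linarith [hy.2])
    have i2 := mul_le_mul_of_nonneg_left h2 (show 0 ≤ 2 * y - 1 by linarith)
    linarith

variable {V : Type*} [Fintype V] [DecidableEq V]
variable {x : V → V → ℝ} {P : V → Prop} [DecidablePred P] {sl : ℝ → ℝ → ℝ}
variable {h : ℝ → V → V → ℝ} {H : V → V → ℝ → ℝ} {w : V → V → ℝ → ℝ}
variable {Z : Hzd} {B E1 : ℝ → ℝ → ℝ} {t : ℝ}
variable {T : Dt} {b0 b1 : ℝ → ℝ} {Pe : ℝ → ℝ → ℝ} {Pt : ℝ → ℝ → ℝ → ℝ}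
variable {IZ NI Bp : ℝ → ℝ} {dl : ℝ} {u : UDat} {q : TDat}

/-- **the density bound** -/
theorem dn_core (hT : T.Ok) (hk : T.KOk b0 b1 Pe Pt) (hx : Wt x P 1)
    (hw : Wr T.ek.kd x P w)
    (hψ : Cor x P (psi T.cf x P (pfOf T.ek.kd x P w)) (psi' T.cf x P (pfOf T.ek.kd x P w)))
    (hL : (T.ld IZ NI Bp dl).Ok) (hC : Z.Cf B E1) (hZ : Z.Ok sl)
    (uP : u.Pos) (uB : u.Bd) (qP : q.Pos u) (qB : q.Bd u)
    (ck : ∀ r ∈ Icc 0 (q.bt : ℝ), Ck Z B u.us q.C (pv q.mb) r)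
    (cB : ∀ r ∈ Icc 0 (q.bt : ℝ), ContinuousOn (B r) (Icc 0 r))
    (hbq : BqOk b0 b1 (q.bt : ℝ) (pv q.bq))
    (hK : Kn x P (dn x P (psi' T.cf x P (pfOf T.ek.kd x P w))) T.cf.ab h H t)
    (htb : t ≤ (q.bt : ℝ))
    (hle : ∀ u v, ∀ r ∈ Icc 0 t, h r u v ≤ Z.hh x P r u v)
    (hHle : ∀ u v, ∀ σ ∈ Icc 0 t, ∀ r ∈ Icc 0 σ, H u v σ - H u v r ≤ Z.Hh x P σ u v r)
    {a b d : V} (ha : P a) (hb : P b) (hab : a ≠ b)
    (hd : d ∈ ({a, b} : Finset V)ᶜ) (hxbd : x b d ≠ 0) {s : ℝ} (hs : s ∈ Icc 0 t) :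
    RCM.Dens h t s a b d ((1 + (x a b + x a d) * t) * (1 + dl * t)
      * (pv q.kc t * pv q.ke s)) := by
  simp only [Finset.mem_compl, Finset.mem_insert, Finset.mem_singleton, not_or] at hd
  have had : a ≠ d := Ne.symm hd.1
  have hbd : b ≠ d := Ne.symm hd.2
  have ht := hK.ht
  have hm : ∀ r ∈ Icc 0 t, r ∈ Icc (0 : ℝ) (q.bt : ℝ) := fun r hr => ⟨hr.1, hr.2.trans htb⟩
  have hm1 : ∀ r ∈ Icc 0 t, r ∈ Icc (0 : ℝ) bt := fun r hr => ⟨hr.1, hr.2.trans ht.2⟩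
  have bt0 := TDat.bt_nn qP qB uB uP
  have hdx : P d ∨ x a d = 0 := by
    by_cases hPd : P d
    · exact Or.inl hPd
    · right
      by_contra hc
      have := hx.pend1 a d b hPd hc (by rwa [hx.symm d b])
      exact hab this.symm
  obtain ⟨Em, Em', e1, e2, e3⟩ := hK.lam hx hψ hL (Dt.psB hT hx hw IZ NI Bp dl) ha hb hab had hbd
    hdx (fun _ _ => le_rfl)
  have w0 : 0 ≤ x a b + x a d := add_nonneg (hx.nonneg a b) (hx.nonneg a d)
  have hbq' : ∀ r ∈ Icc 0 t, ∀ e, dE h a e r ≤ x a e * pv q.bq r := by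
    intro r hr e
    have hr0 : 0 < 1 + r := by linarith [hr.1]
    refine (hK.dE_le hx a e hr).trans ?_
    by_cases he : x a e = 0
    · rw [he]; simp
    refine mul_le_mul_of_nonneg_left ?_ (hx.nonneg a e)
    by_cases hPe : P e
    · have h1 := Dt.phi_le hT hk hx hw ha hPe he (hm1 r hr)
      have h2 := mul_le_mul_of_nonneg_left h1 hr0.le
      refine h2.trans ?_
      have h3 := hbq.le (xmem1 (P := P) hx a e) (hm r hr)
      have h4 : (1 + r) * (T.kf b0 b1 Pe Pt).fh (xr x P a e) r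
          = (1 + (1 - xr x P a e) * (b0 r - 1) + eta (xr x P a e) * b1 r) / (1 + r) := by
        show (1 + r) * ((1 + (1 - xr x P a e) * (b0 r - 1) + eta (xr x P a e) * b1 r)
          * ((1 + r) ^ 2)⁻¹) = _
        field_simp
      rw [h4, div_le_iff₀ hr0]
      linarith
    · have h1 : dn x P (psi' T.cf x P (pfOf T.ek.kd x P w)) a e r = ((1 + r) ^ 2)⁻¹ := by
        unfold dn
        rw [if_neg fun hh => hPe hh.1.2]
      rw [h1]
      have h3 := hbq.one r (hm r hr)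
      have h4 : (1 + r) * ((1 + r) ^ 2)⁻¹ = 1 / (1 + r) := by
        field_simp
      rw [h4, div_le_iff₀ hr0]
      linarith
  have key := Kn.dens_ep hK (UDat.ok uP uB) bt0 ck hC hZ hx cB hle hHle hab had hbd
    (bq := pv q.bq) (χ := fun _ => 1) (χ2 := fun _ => 1)
    (ε1 := fun r => (1 - (x a b + x a d) / 2) * q.c r)
    (ε1' := fun r => (1 - (x a b + x a d) / 2) * pv q.cp r)
    (ε2 := q.e2) (ε2' := pv q.ep) e1 e2 e3 hbq'
    (fun r hr => TDat.bq_nn qP qB uB uP (hm r hr))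
    (fun _ _ => ⟨zero_le_one, le_rfl⟩) (fun r hr hlt => absurd (hm r hr).2 (not_le.2 hlt))
    (fun _ _ => ⟨zero_le_one, le_rfl⟩) (fun r hr hlt => absurd (hm r hr).2 (not_le.2 hlt))
    (fun r _ => (hasDerivAt_pri _ r).const_mul _) (fun r _ => hasDerivAt_pri _ r)
    (fun r hr => ?_) (fun r hr => ?_) hs
  · have h1 := TDat.exp_ce qP qB uB uP (w := x a b + x a d) (hm t ⟨ht.1, le_rfl⟩) (hm s hs) w0
    have z1 : q.c 0 = 0 := pri_zero _
    have z2 : q.e2 0 = 0 := pri_zero _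
    intro R hR hR1
    refine (key R hR hR1).trans ?_
    have p1 : 0 ≤ pr (lw h ∅ t) {a} := (pr_pos' hK.hh (btI ht) _).le
    have p2 : 0 ≤ pr (lw h ∅ s) {b, d} := (pr_pos' hK.hh (btI (hm1 s hs)) _).le
    have m0 : 0 ≤ (1 + (x a b + x a d) * t) * (1 + dl * t) := (Real.exp_pos _).le.trans e3
    refine mul_le_mul_of_nonneg_left (mul_le_mul_of_nonneg_left
      (mul_le_mul_of_nonneg_left ?_ m0) p2) p1
    refine le_trans (le_of_eq ?_) h1
    rw [z1, z2]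
    ring_nf
  · unfold rt1
    have h1 := TDat.r1_le qP qB uB uP (hm r hr)
    have h2 : x a b + x a d ≤ 1 := by
      have h3 := hx.row a
      rw [← Finset.sum_add_sum_compl ({b, d} : Finset V), Finset.sum_pair hbd] at h3
      have : 0 ≤ ∑ e ∈ ({b, d} : Finset V)ᶜ, x a e := Finset.sum_nonneg fun e _ => hx.nonneg a e
      linarith
    have h3 := mul_le_mul_of_nonneg_left h1 (show 0 ≤ 1 - (x a b + x a d) / 2 by linarith)
    refine le_trans (le_of_eq ?_) h3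
    ring
  · unfold rt2
    have h1 := TDat.r2_le qP qB uB uP (hm r hr)
    refine le_trans (le_of_eq ?_) h1
    ring

end Pool.Agent.RX.RCN.K
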