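import Pool.Agent.RX.RCE.Dens
import Pool.Agent.RX.RCM.BMl
import Pool.Agent.RX.RCN.Free

/-! The explicit density bound in the certified process (MP_73ccd0_lc, route M). -/

namespace Pool.Agent.RX.RCN

open Set Finset Pool.Agent.RX.RCRSHalf Pool.Agent.RX.RCRSGen Pool.Agent.RX.RCG Pool.Agent.RX.RCG.Ct
  Pool.Agent.RX.RCM Pool.Agent.RX.RCE

set_option linter.unusedSectionVars false

variable {V : Type*} [Fintype V] [DecidableEq V]
variable {x : V → V → ℝ} {P : V → Prop} [DecidablePred P]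
variable {h : ℝ → V → V → ℝ} {H : V → V → ℝ → ℝ}
variable {φ : V → V → ℝ → ℝ} {ab : ℝ → ℝ → ℝ} {t : ℝ}

theorem pr_insert_le (hh : Haz h H) {r : ℝ} (hr : r ∈ Icc (0 : ℝ) 1) (d : V) (W : Finset V) :
    pr (lw h ∅ r) (insert d W) ≤ pr (lw h ∅ r) W := by
  have hlaw : IsLaw h Finset.univ 1 (lw h ∅) := by
    have := hh.lw (∅ : Finset V)
    rwa [Finset.compl_empty] at this
  unfold pr
  refine Finset.sum_le_sum fun F _ => mul_le_mul_of_nonneg_left ?_ (hlaw.nonneg F r hr)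
  by_cases h1 : insert d W ⊆ F
  · rw [if_pos h1, if_pos ((Finset.subset_insert d W).trans h1)]
  · rw [if_neg h1]; split_ifs <;> norm_num

/-- **The density bound in the certified process.** -/
theorem Kn.dens (hK : Kn x P φ ab h H t) {a b c : V} (hab : a ≠ b) (hac : a ≠ c)
    (hbc : b ≠ c) {Em Em' ε1 ε1' ε2 ε2' : ℝ → ℝ} {m1 m2 : V → ℝ → ℝ} {ν : V → ℝ → ℝ → ℝ} {Bm : ℝ}
    (dP : ∀ r ∈ Icc 0 t, HasDerivAt Em (Em' r) r)
    (hP : ∀ r ∈ Icc 0 t, (x a b * φ a b r + x a c * φ a c r) / bb h ∅ a r ≤ Em' r)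
    (hBm : Real.exp (Em t - Em 0) ≤ Bm)
    (d1 : ∀ r ∈ Icc 0 t, HasDerivAt ε1 (ε1' r) r) (d2 : ∀ r ∈ Icc 0 t, HasDerivAt ε2 (ε2' r) r)
    (h1 : ∀ r ∈ Icc 0 t, ∀ d ∈ ({a, b, c} : Finset V)ᶜ, x a d ≠ 0 → ∃ K1 K2,
      CloD h r r {a, b} {a, b} c d K1 ∧ CloD h r r {a} {a} b d K2 ∧ (1 - m1 d r) * (K1 * K2) ≤ 1)
    (s1 : ∀ r ∈ Icc 0 t, ∑ d ∈ ({a, b, c} : Finset V)ᶜ,
      dE h a d r * m1 d r ≤ ε1' r)
    (m20 : ∀ r ∈ Icc 0 t, ∀ d ∈ ({a, b, c} : Finset V)ᶜ, 0 ≤ m2 d r)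
    (h2 : ∀ r ∈ Icc 0 t, ∀ d ∈ ({a, b, c} : Finset V)ᶜ, x b d ≠ 0 ∨ x c d ≠ 0 → ∃ K3,
      CloD h r r {b, c} {b, c} a d K3 ∧ (1 - m2 d r) * K3 ≤ 1)
    (s2 : ∀ r ∈ Icc 0 t, ∑ d ∈ ({a, b, c} : Finset V)ᶜ, (h r b d + h r c d) * m2 d r ≤ ε2' r)
    (h3 : ∀ s ∈ Icc 0 t, ∀ r ∈ Icc s t, ∀ d ∈ ({a, b, c} : Finset V)ᶜ, x a d ≠ 0 → ∃ K4 K5,
      CloD h r s {a} {a} d b K4 ∧ CloD h r s {a} {a, b} d c K5 ∧ (1 - ν d s r) * (K4 * K5) ≤ 1)
    (s3 : ∀ s ∈ Icc 0 t, ∀ r ∈ Icc s t, ∑ d ∈ ({a, b, c} : Finset V)ᶜ,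
      dE h a d r * ν d s r ≤ ε1' r) {s : ℝ} (hs : s ∈ Icc 0 t) :
    Dens h t s a b c (Bm * Real.exp ((ε1 t - ε1 0) + (ε2 s - ε2 0))) := by
  intro R hR hR1
  have ht := hK.ht
  have hh := hK.hh
  have hset : (Finset.univ \ {a, b, c} : Finset V) = ({a, b, c} : Finset V)ᶜ := by
    rw [Finset.compl_eq_univ_sdiff]
  have hzero : ∀ r ∈ Icc 0 t, ∀ u v, h r u v ≠ 0 → x u v ≠ 0 := fun r hr u v hne he =>
    hne (hK.hz r ⟨hr.1, hr.2.trans (bt2 ht)⟩ u v he)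
  have hin1 : ∀ r ∈ Icc 0 s, r ∈ Icc 0 t := fun r hr => ⟨hr.1, hr.2.trans hs.2⟩
  have hin2 : ∀ r ∈ Icc s t, r ∈ Icc 0 t := fun r hr => ⟨hs.1.trans hr.1, hr.2⟩
  have pos : ∀ r ∈ Icc 0 t, ∀ W : Finset V, 0 < pr (lw h ∅ r) W := fun r hr W =>
    pr_pos' hh ⟨hr.1, hr.2.trans (bt2 ht)⟩ W
  have main : ∀ r ∈ Icc 0 t, h r a b * (pr (lw h ∅ r) {a, b} / pr (lw h ∅ r) {a}) +
      h r a c * (pr (lw h ∅ r) {a, c} / pr (lw h ∅ r) {a}) ≤ Em' r := by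
    intro r hr
    refine le_trans (le_of_eq ?_) (hP r hr)
    rw [← hK.fl r hr a b, ← hK.fl r hr a c]
    show _ = (h r a b * pr (lw h ∅ r) {a, b} + h r a c * pr (lw h ∅ r) {a, c})
      / pr (lw h ∅ r) {a}
    ring
  have hdE : ∀ r d, h r a d * (pr (lw h ∅ r) {a, d} / pr (lw h ∅ r) {a}) = dE h a d r := by
    intro r d
    show _ = h r a d * pr (lw h ∅ r) {a, d} / pr (lw h ∅ r) {a}
    ring
  have key := dens_clo2 hh hab hac hbc hs.1 hs.2 (bt2 ht) (m1 := m1) (m2 := m2) (ν := fun d r => ν d s r)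
    (E1 := fun r => Em r + ε1 r + ε2 r) (E1' := fun r => Em' r + ε1' r + ε2' r)
    (E2 := fun r => Em r + ε1 r) (E2' := fun r => Em' r + ε1' r)
    (fun r hr => ((dP r (hin1 r hr)).add (d1 r (hin1 r hr))).add (d2 r (hin1 r hr)))
    (fun r hr => (dP r (hin2 r hr)).add (d1 r (hin2 r hr)))
    (fun r hr => by
      have hr' := hin1 r hr
      rw [hset, add_assoc (Em' r)]
      refine add_le_add (main r hr') ?_
      rw [Finset.sum_add_distrib]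
      refine add_le_add (le_trans (le_of_eq ?_) (s1 r hr'))
        (le_trans (Finset.sum_le_sum fun d hd => ?_) (s2 r hr'))
      · refine Finset.sum_congr rfl fun d _ => ?_
        rw [← hdE]; ring
      · have h0 : 0 ≤ h r b d + h r c d := add_nonneg (hh.nonneg r b d) (hh.nonneg r c d)
        have h1 : pr (lw h ∅ r) {b, c, d} / pr (lw h ∅ r) {b, c} ≤ 1 := by
          rw [div_le_one (pos r hr' _)]
          have e : ({b, c, d} : Finset V) = insert d {b, c} := by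
            ext z; simp only [Finset.mem_insert, Finset.mem_singleton]; tauto
          rw [e]
          exact pr_insert_le hh ⟨hr'.1, hr'.2.trans (bt2 ht)⟩ d _
        have h2 := m20 r hr' d hd
        have h3 : m2 d r * (pr (lw h ∅ r) {b, c, d} / pr (lw h ∅ r) {b, c}) ≤ m2 d r := by
          nlinarith
        exact mul_le_mul_of_nonneg_left h3 h0)
    (fun r hr => by
      have hr' := hin2 r hr
      rw [hset]
      refine add_le_add (main r hr') (le_trans (le_of_eq ?_) (s3 s hs r hr))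
      refine Finset.sum_congr rfl fun d _ => ?_
      rw [← hdE]; ring)
    (fun r hr d hd hne => by
      rw [hset] at hd
      exact h1 r (hin1 r hr) d hd (hzero r (hin1 r hr) _ _ hne))
    (fun r hr d hd hne => by
      rw [hset] at hd
      refine h2 r (hin1 r hr) d hd ?_
      by_contra hcon
      push Not at hcon
      have hr1 : r ∈ Icc (0 : ℝ) 1 := ⟨hr.1, (hin1 r hr).2.trans (bt2 ht)⟩
      exact hne (by rw [hK.hz r hr1 b d hcon.1, hK.hz r hr1 c d hcon.2, add_zero]))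
    (fun r hr d hd hne => by
      rw [hset] at hd
      exact h3 s hs r hr d hd (hzero r (hin2 r hr) _ _ hne)) hR hR1
  refine key.trans ?_
  have e1 : Em s + ε1 s + ε2 s - (Em 0 + ε1 0 + ε2 0)
      + (Em t + ε1 t - (Em s + ε1 s))
      = (Em t - Em 0) + ((ε1 t - ε1 0) + (ε2 s - ε2 0)) := by ring
  rw [e1, Real.exp_add]
  have p1 : 0 ≤ pr (lw h ∅ t) {a} := (pos t ⟨ht.1, le_rfl⟩ _).le
  have p2 : 0 ≤ pr (lw h ∅ s) {b, c} := (pos s hs _).le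
  exact mul_le_mul_of_nonneg_left (mul_le_mul_of_nonneg_left
    (mul_le_mul_of_nonneg_right hBm (Real.exp_pos _).le) p2) p1

end Pool.Agent.RX.RCN
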