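import Pool.Agent.RX.RCE.UDat

/-! Generated: the numbers of the scalar functions of the density errors and the box certificates. -/

set_option autoImplicit false

namespace Pool.Agent.RX.RCE.U55v

open Pool.Agent.RX.RCM9 Pool.Agent.RX.RCM9.Bern Pool.Agent.RX.RCM9.Pk Pool.Agent.RX.RCE

def u : UDat where
  U0 := 1107/2000
  u1 := 511/1000
  u2 := 249/500
  m := 91/2000
  q := 10233/10000
  be := [0, 26/25]
  np := [0, 668333/1000000, 223791/1000000, 77989/1000000, 31141/500000]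
  g := [125001/125000, (-191/1000000), 2583/1000000, 99689/1000000, 7529/200000]
  c := [0, 3127/3125, 496177/1000000, 1432/15625, (-93271/500000)]
  gg := [1000523/1000000, (-41/62500), 4357/500000, 7371/40000, 12191/125000]
  gc := [0, 20023/20000, 504979/1000000, 16203/1000000, 60559/250000]
  lam := [125181/125000, (-29973/1000000), 332291/500000, (-2590689/500000), 19938843/1000000, (-33814189/1000000), 5402333/250000]
  sl := [125153/125000, (-463/31250), 328247/1000000, (-2555711/1000000), 9833189/1000000, (-4165797/250000), 10633713/1000000]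
  ss := [125063/250000, 50011/200000, 63017/500000, 649/10000, 26337/1000000]
  lA := [0, 250249/500000, 253419/1000000, 143063/1000000, 19459/125000]
  sA := [0, 10997/31250, 120531/500000, 142283/1000000, 78591/500000]
  FA := [0, 209943/500000, 25007/100000, 143701/1000000, 19527/125000]
  c3 := [1023797/1000000, 272119/1000000, 0, 0]
  rd := [15641/31250, 66711/200000, 17277/100000, 97587/1000000, 64787/500000]
  Gpd := [0, 251249/500000, 257931/1000000, 805389/1000000, 2160239/1000000, (-10661277/1000000), 4624449/125000, (-57949969/1000000), 19896647/500000]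
  Gmd := [0, 0, 294101/250000, 146339/500000, 116081/100000, (-1244851/250000), 2895363/125000, (-20645783/500000), 3996091/125000]
  Pfd := [0, 105391/250000, 253359/1000000, 97023/200000, 787661/500000, (-1353643/200000), 23856257/1000000, (-9354669/250000), 26192267/1000000]
  Mfd := [0, 0, 673887/1000000, 248491/1000000, 725607/1000000, (-2905363/1000000), 7273301/500000, (-13079997/500000), 20907389/1000000]
  Wd := [0, 521113/1000000, (-3159/500000), 27899/500000, (-56783/1000000), 197313/1000000]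
  Vd := [0, 0, 10479/40000, 32767/125000, 43203/125000, 497811/500000, (-4424693/1000000), 26279729/1000000, (-50994591/1000000), 510931/12500]
  Ud := [0, 0, 0, 44923/500000, 355379/500000, 54403/100000, 426271/250000, (-849291/100000), 19580623/500000, (-6934349/100000), 52416207/1000000]
  Qd := [0, 260487/500000, 63349/500000, 725633/1000000, 799163/1000000, (-3207473/1000000), 37592783/1000000, (-73458979/500000), 333988413/1000000, (-399012711/1000000), 210911861/1000000]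
  de := [0, 0, 0, 0, 0, 0, 0, 0, 833/40000, 6785763/25000, (-773569017/500000), 369508009/125000, (-944914863/500000)]

theorem n_be0 : N4 (u.P u.be) :=
  N4.of (K := 27) (D := ⟨1, 1, 1, 2⟩) (Box.of 4 (by decide +kernel)) (by decide +kernel)

theorem n_Y0 : N4 (u.P u.Yl) :=
  N4.of (K := 107) (D := ⟨1, 1, 1, 7⟩) (Box.of 4 (by decide +kernel)) (by decide +kernel)

theorem n_Yth : N4 (u.aE u.uE) :=
  N4.of (K := 113) (D := ⟨1, 1, 1, 7⟩) (Box.of 4 (by decide +kernel)) (by decide +kernel)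

theorem n_aY : N4 (1 - u.aE u.uE) :=
  N4.of (K := 115) (D := ⟨1, 1, 1, 7⟩) (Box.of 4 (by decide +kernel)) (by decide +kernel)

theorem n_N0 : N4 (u.P u.Nl) :=
  N4.of (K := 95) (D := ⟨1, 1, 1, 6⟩) (Box.of 4 (by decide +kernel)) (by decide +kernel)

theorem n_N1 : N4 (1 - u.P u.Nl) :=
  N4.of (K := 98) (D := ⟨1, 1, 1, 6⟩) (Box.of 4 (by decide +kernel)) (by decide +kernel)

theorem n_oN : N4 u.oN :=
  N4.of (K := 535) (D := ⟨1, 1, 1, 31⟩) (Box.of 4 (by decide +kernel)) (by decide +kernel)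

theorem n_g : N4 u.eg :=
  N4.of (K := 525) (D := ⟨1, 1, 1, 31⟩) (Box.of 4 (by decide +kernel)) (by decide +kernel)

theorem n_c : N4 u.ec :=
  N4.of (K := 526) (D := ⟨1, 1, 1, 31⟩) (Box.of 4 (by decide +kernel)) (by decide +kernel)

theorem n_c3c : N4 u.ec3c :=
  N4.of (K := 218) (D := ⟨1, 1, 1, 13⟩) (Box.of 4 (by decide +kernel)) (by decide +kernel)

theorem n_gg : N4 u.egg :=
  N4.of (K := 152) (D := ⟨1, 1, 1, 9⟩) (Box.of 4 (by decide +kernel)) (by decide +kernel)

theorem n_gc : N4 u.egc :=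
  N4.of (K := 223) (D := ⟨1, 1, 1, 13⟩) (Box.of 4 (by decide +kernel)) (by decide +kernel)

theorem n_lam1 : N4 u.elam1 :=
  N4.of (K := 129) (D := ⟨1, 1, 1, 7⟩) (Box.of 1194267 (by decide +kernel)) (by decide +kernel)

theorem n_a1 : N4 u.ea1 :=
  N4.of (K := 108) (D := ⟨1, 1, 1, 7⟩) (Box.of 4 (by decide +kernel)) (by decide +kernel)

theorem n_lam2 : N4 u.elam2 :=
  N4.of (K := 288) (D := ⟨1, 1, 1, 17⟩) (Box.of 4 (by decide +kernel)) (by decide +kernel)

theorem n_sl0 : N4 (u.P u.sl) :=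
  N4.of (K := 111) (D := ⟨1, 1, 1, 7⟩) (Box.of 4 (by decide +kernel)) (by decide +kernel)

theorem n_sl : N4 u.esl :=
  N4.of (K := 211) (D := ⟨1, 1, 1, 13⟩) (Box.of 4 (by decide +kernel)) (by decide +kernel)

theorem n_ss : N4 u.ess :=
  N4.of (K := 1045) (D := ⟨1, 1, 1, 61⟩) (Box.of 4 (by decide +kernel)) (by decide +kernel)

theorem n_lA0 : N4 (u.P u.lA) :=
  N4.of (K := 79) (D := ⟨1, 1, 1, 5⟩) (Box.of 4 (by decide +kernel)) (by decide +kernel)

theorem n_lA : N4 u.elA :=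
  N4.of (K := 588) (D := ⟨7, 1, 1, 31⟩) (Box.of 76677152 (by decide +kernel)) (by decide +kernel)

theorem n_sA0 : N4 (u.P u.sA) :=
  N4.of (K := 81) (D := ⟨1, 1, 1, 5⟩) (Box.of 4 (by decide +kernel)) (by decide +kernel)

theorem n_sA : N4 u.esA :=
  N4.of (K := 682) (D := ⟨9, 7, 1, 31⟩) (Box.of 87503422003044926967824928 (by decide +kernel)) (by decide +kernel)

theorem n_FA0 : N4 (u.P u.FA) :=
  N4.of (K := 79) (D := ⟨1, 1, 1, 5⟩) (Box.of 4 (by decide +kernel)) (by decide +kernel)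

theorem n_FA : N4 u.eFA :=
  N4.of (K := 149) (D := ⟨1, 1, 1, 9⟩) (Box.of 4 (by decide +kernel)) (by decide +kernel)

theorem n_rd0 : N4 u.erd0 :=
  N4.of (K := 85) (D := ⟨1, 1, 1, 5⟩) (Box.of 4 (by decide +kernel)) (by decide +kernel)

theorem n_rd : N4 u.erd :=
  N4.of (K := 265) (D := ⟨8, 1, 1, 15⟩) (Box.of 4 (by decide +kernel)) (by decide +kernel)

theorem n_c30 : N4 (u.P u.c3) :=
  N4.of (K := 51) (D := ⟨1, 1, 1, 4⟩) (Box.of 4 (by decide +kernel)) (by decide +kernel)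

theorem n_psi : N4 u.eψi :=
  N4.of (K := 161) (D := ⟨5, 1, 1, 7⟩) (Box.of 4908384288 (by decide +kernel)) (by decide +kernel)

theorem n_Gp0 : N4 (u.P (pri u.Gpd)) :=
  N4.of (K := 151) (D := ⟨1, 1, 1, 10⟩) (Box.of 4 (by decide +kernel)) (by decide +kernel)

theorem n_Gm0 : N4 (u.P (pri u.Gmd)) :=
  N4.of (K := 149) (D := ⟨1, 1, 1, 10⟩) (Box.of 4 (by decide +kernel)) (by decide +kernel)

theorem n_Pf0 : N4 (u.P (pri u.Pfd)) :=
  N4.of (K := 151) (D := ⟨1, 1, 1, 10⟩) (Box.of 4 (by decide +kernel)) (by decide +kernel)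

theorem n_Mf0 : N4 (u.P (pri u.Mfd)) :=
  N4.of (K := 148) (D := ⟨1, 1, 1, 10⟩) (Box.of 4 (by decide +kernel)) (by decide +kernel)

theorem n_W0 : N4 (u.P (pri u.Wd)) :=
  N4.of (K := 106) (D := ⟨1, 1, 1, 7⟩) (Box.of 4 (by decide +kernel)) (by decide +kernel)

theorem n_V0 : N4 (u.P (pri u.Vd)) :=
  N4.of (K := 156) (D := ⟨1, 1, 1, 11⟩) (Box.of 4 (by decide +kernel)) (by decide +kernel)

theorem n_Uu0 : N4 (u.P (pri u.Ud)) :=
  N4.of (K := 179) (D := ⟨1, 1, 1, 12⟩) (Box.of 4 (by decide +kernel)) (by decide +kernel)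

theorem n_oGp : N4 u.oGp :=
  N4.of (K := 393) (D := ⟨1, 1, 1, 25⟩) (Box.of 4 (by decide +kernel)) (by decide +kernel)

theorem n_oGm : N4 u.oGm :=
  N4.of (K := 392) (D := ⟨1, 1, 1, 25⟩) (Box.of 4 (by decide +kernel)) (by decide +kernel)

theorem n_oPf : N4 u.oPf :=
  N4.of (K := 393) (D := ⟨1, 1, 1, 25⟩) (Box.of 4 (by decide +kernel)) (by decide +kernel)

theorem n_oMf : N4 u.oMf :=
  N4.of (K := 393) (D := ⟨1, 1, 1, 25⟩) (Box.of 4 (by decide +kernel)) (by decide +kernel)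

theorem n_oW : N4 u.oW :=
  N4.of (K := 220) (D := ⟨1, 1, 1, 12⟩) (Box.of 291 (by decide +kernel)) (by decide +kernel)

theorem n_oV : N4 u.oV :=
  N4.of (K := 439) (D := ⟨1, 1, 1, 27⟩) (Box.of 4 (by decide +kernel)) (by decide +kernel)

theorem n_oU : N4 u.oU :=
  N4.of (K := 438) (D := ⟨1, 1, 1, 27⟩) (Box.of 4 (by decide +kernel)) (by decide +kernel)

theorem n_oQ : N4 u.oQ :=
  N4.of (K := 467) (D := ⟨1, 1, 1, 29⟩) (Box.of 4 (by decide +kernel)) (by decide +kernel)

theorem n_m : N4 u.em :=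
  N4.of (K := 170) (D := ⟨1, 1, 1, 11⟩) (Box.of 4 (by decide +kernel)) (by decide +kernel)

theorem n_de0 : N4 (u.P u.de) :=
  N4.of (K := 212) (D := ⟨1, 1, 1, 13⟩) (Box.of 291 (by decide +kernel)) (by decide +kernel)

theorem n_de1 : N4 u.ede1 :=
  N4.of (K := 165) (D := ⟨3, 1, 1, 12⟩) (Box.of 4 (by decide +kernel)) (by decide +kernel)

theorem n_de2 : N4 u.ede2 :=
  N4.of (K := 817) (D := ⟨11, 1, 1, 45⟩) (Box.of 20070390712320 (by decide +kernel)) (by decide +kernel)

theorem pos : u.Pos :=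
  ⟨n_be0, n_Y0, n_Yth, n_aY, n_N0, n_N1, n_oN, n_g, n_c, n_c3c, n_gg, n_gc, n_lam1, n_a1, n_lam2, n_sl0, n_sl, n_ss, n_lA0, n_lA, n_sA0, n_sA, n_FA0, n_FA, n_rd0, n_rd, n_c30, n_psi, n_Gp0, n_Gm0, n_Pf0, n_Mf0, n_W0, n_V0, n_Uu0, n_oGp, n_oGm, n_oPf, n_oMf, n_oW, n_oV, n_oU, n_oQ, n_m, n_de0, n_de1, n_de2⟩

theorem bd : u.Bd := by
  constructor <;> decide +kernel

end Pool.Agent.RX.RCE.U55v
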