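import Pool.Agent.RX.RCE.BqC
import Pool.Agent.RX.RCE.U55v

/-! Generated: the rates of the density errors and the box certificates. -/

set_option autoImplicit false

namespace Pool.Agent.RX.RCE.T55v

open Pool.Agent.RX.RCM9 Pool.Agent.RX.RCM9.Bern Pool.Agent.RX.RCM9.Pk Pool.Agent.RX.RCE Pool.Agent.RX.RCE.U55v

def t : TDat where
  bt := 11/20
  mb := [1003001/1000000, 167/6250, (-129410909/100000000), 600012021/25000000, (-21952107097/100000000), 54352452329/50000000, (-2956242997/1000000), 413310928303/100000000, (-230867572779/100000000)]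
  bq := [1004031/1000000, 1028917/1000000, (-6661851/500000), 18414689/500000, (-31910513/1000000)]
  E2 := [499987/500000, 761/1000000, (-72757/250000), 124977/1000000, (-2279091/1000000), 495883/125000, (-875003/250000)]
  K1 := [27/500000, (-683/500000), 115013/200000, (-135267/1000000), 1877689/500000, (-597347/100000), 4406769/1000000]
  K2 := [1/125000, (-691/1000000), 210743/1000000, (-17899/125000), 236071/125000, (-680159/200000), 3042517/1000000]
  cp := [29/500000, (-29/15625), 611779/1000000, (-6447/31250), 2713891/1000000, (-2015503/125000), 242823/5000, (-181399/4000)]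
  ep := [17/500000, (-853/200000), 576807/1000000, (-742247/250000), 24889111/1000000, (-43001071/500000), 2265937/15625, (-1135177/12500)]
  kc := [500001/500000, (-1/15625), 943/200000, 105881/1000000, 96767/125000, (-394161/125000), 791717/125000, (-861129/200000)]
  ke := [1000003/1000000, (-51/250000), 8849/1000000, 1897/1000000, 859129/1000000, (-2220177/1000000), 1671893/500000, (-393743/250000)]

def b0l : List ℚ := [1003631/1000000, 189299273/100000000, (-136522843/10000000), 1264167393/25000000, (-54441713/500000), 6369733811/50000000, (-1283107587/20000000)]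

def b1l : List ℚ := [(-12249/6250), 1468106091/50000000, (-4932038843/25000000), 2627394861/4000000, (-77205670651/100000000), (-42158121837/50000000), 22000637133/10000000, 27996113751/50000000, (-29749996689/12500000)]

theorem n_tS0 : N4 (TDat.SE u) :=
  N4.of (K := 199) (D := ⟨1, 1, 1, 13⟩) (Box.of 4 (by decide +kernel)) (by decide +kernel)

theorem n_tE0 : N4 (t.hE0 u) :=
  N4.of (K := 108) (D := ⟨1, 1, 1, 7⟩) (Box.of 4 (by decide +kernel)) (by decide +kernel)

theorem n_tE2 : N4 (t.hE2 u) :=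
  N4.of (K := 1045) (D := ⟨1, 1, 1, 61⟩) (Box.of 291 (by decide +kernel)) (by decide +kernel)

theorem n_tK1 : N4 (t.hK1 u) :=
  N4.of (K := 252) (D := ⟨1, 1, 1, 13⟩) (Box.of 18715 (by decide +kernel)) (by decide +kernel)

theorem n_tK2 : N4 (t.hK2 u) :=
  N4.of (K := 1091) (D := ⟨1, 1, 1, 61⟩) (Box.of 291 (by decide +kernel)) (by decide +kernel)

theorem n_tbq : N4 (pe t.bq t.tE) :=
  N4.of (K := 60) (D := ⟨1, 1, 1, 5⟩) (Box.of 4 (by decide +kernel)) (by decide +kernel)

theorem n_tcp : N4 t.hcp :=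
  N4.of (K := 720) (D := ⟨1, 1, 1, 59⟩) (Box.of 291 (by decide +kernel)) (by decide +kernel)

theorem n_tep : N4 t.hep :=
  N4.of (K := 980) (D := ⟨1, 1, 1, 63⟩) (Box.of 76433627 (by decide +kernel)) (by decide +kernel)

theorem n_tmb : N4 t.hmb :=
  N4.of (K := 111) (D := ⟨1, 1, 1, 9⟩) (Box.of 291 (by decide +kernel)) (by decide +kernel)

theorem n_tc0 : N4 (pe t.cp t.tE) :=
  N4.of (K := 99) (D := ⟨1, 1, 1, 8⟩) (Box.of 18715 (by decide +kernel)) (by decide +kernel)

theorem n_te0 : N4 (pe t.ep t.tE) :=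
  N4.of (K := 129) (D := ⟨1, 1, 1, 8⟩) (Box.of 76695259 (by decide +kernel)) (by decide +kernel)

theorem n_tkc : N4 t.hkc :=
  N4.of (K := 347) (D := ⟨1, 1, 1, 41⟩) (Box.of 4 (by decide +kernel)) (by decide +kernel)

theorem n_tke : N4 t.hke :=
  N4.of (K := 431) (D := ⟨1, 1, 1, 41⟩) (Box.of 291 (by decide +kernel)) (by decide +kernel)

theorem n_bb1 : N4 t.hb1 :=
  N4.of (K := 78) (D := ⟨1, 1, 1, 6⟩) (Box.of 291 (by decide +kernel)) (by decide +kernel)

theorem n_bv0 : N4 (t.hv0 b0l) :=
  N4.of (K := 117) (D := ⟨1, 1, 1, 7⟩) (Box.of 1197851 (by decide +kernel)) (by decide +kernel)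

theorem n_bv1 : N4 (t.hv1 b0l b1l) :=
  N4.of (K := 159) (D := ⟨1, 1, 1, 9⟩) (Box.of 4891494115 (by decide +kernel)) (by decide +kernel)

theorem n_bv2 : N4 (t.hv2 b1l) :=
  N4.of (K := 125) (D := ⟨1, 1, 1, 9⟩) (Box.of 18659 (by decide +kernel)) (by decide +kernel)

theorem tpos : t.Pos u :=
  ⟨n_tS0, n_tE0, n_tE2, n_tK1, n_tK2, n_tbq, n_tcp, n_tep, n_tmb, n_tc0, n_te0, n_tkc, n_tke⟩

theorem tbd : t.Bd u := by
  constructor <;> decide +kernel

theorem bpos : t.BPos b0l b1l :=
  ⟨n_bb1, n_bv0, n_bv1, n_bv2⟩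

end Pool.Agent.RX.RCE.T55v
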