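import Pool.Agent.RX.RCE.UOk

/-! The rates of the density errors as rational polynomials of the time (MP_73ccd0_lc, route M). -/

set_option autoImplicit false
set_option linter.unusedSectionVars false

namespace Pool.Agent.RX.RCE

open Set Pool.Agent.RX.RCM9 Pool.Agent.RX.RCM9.Bern Pool.Agent.RX.RCM9.Pk

/-- the lower bound of `e^{-z}` -/
noncomputable def l5 (z : ℝ) : ℝ := 1 - z + z ^ 2 / 2 - z ^ 3 / 6 + z ^ 4 / 24 - z ^ 5 / 120

def L5 (z : E) : E := 1 - z + z ^ 2 * E.num 1 2 - z ^ 3 * E.num 1 6 + z ^ 4 * E.num 1 24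
  - z ^ 5 * E.num 1 120

theorem val_L5 (ρ : ℕ → ℝ) (z : E) : (L5 z).val ρ = l5 (z.val ρ) := by
  unfold l5
  simp only [L5, val_add, val_sub, val_mul, val_pow, val_one, val_num]
  push_cast
  ring

theorem l5_le {v : ℝ} (hv : 0 ≤ v) : l5 v ≤ Real.exp (-v) := by
  have mono : ∀ (f f' : ℝ → ℝ), (∀ x, HasDerivAt f (f' x) x) → f 0 = 0 →
      (∀ x, 0 ≤ x → 0 ≤ f' x) → ∀ x, 0 ≤ x → 0 ≤ f x := by
    intro f f' hd h0 hp x hx
    have hm : MonotoneOn f (Ici 0) := by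
      refine monotoneOn_of_deriv_nonneg (convex_Ici 0)
        (fun r _ => (hd r).continuousAt.continuousWithinAt)
        (fun r _ => (hd r).differentiableAt.differentiableWithinAt) ?_
      intro r hr
      rw [(hd r).deriv]
      exact hp r (interior_subset hr)
    have := hm (mem_Ici.2 le_rfl) (mem_Ici.2 hx) hx
    rwa [h0] at this
  have de : ∀ x : ℝ, HasDerivAt (fun v : ℝ => Real.exp (-v)) (-Real.exp (-x)) x := by
    intro x
    have := (hasDerivAt_neg x).exp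
    refine this.congr_deriv ?_
    ring
  have d1 : ∀ x : ℝ, HasDerivAt (fun v : ℝ => v) 1 x := fun x => hasDerivAt_id' x
  have dn : ∀ (n : ℕ) (c e : ℝ), (n + 1 : ℝ) * e = c → ∀ x : ℝ,
      HasDerivAt (fun v : ℝ => v ^ (n + 1) * e) (x ^ n * c) x := by
    intro n c e hce x
    refine ((hasDerivAt_pow (n + 1) x).mul_const e).congr_deriv ?_
    rw [← hce]
    push_cast
    ring
  have d2 := dn 1 1 (1 / 2) (by norm_num)
  have d3 := dn 2 (1 / 2) (1 / 6) (by norm_num)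
  have d4 := dn 3 (1 / 6) (1 / 24) (by norm_num)
  have d5 := dn 4 (1 / 24) (1 / 120) (by norm_num)
  have s1 : ∀ x : ℝ, 0 ≤ x → 0 ≤ Real.exp (-x) - (1 - x) := by
    intro x _
    have := Real.one_sub_le_exp_neg x
    linarith
  have s2 : ∀ x : ℝ, 0 ≤ x → 0 ≤ 1 - x + x ^ (1 + 1) * (1 / 2) - Real.exp (-x) :=
    mono _ _ (fun x => (((d1 x).const_sub 1).add (d2 x)).sub (de x)) (by simp)
      (fun x hx => by have := s1 x hx; simp only [pow_one]; linarith)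
  have s3 : ∀ x : ℝ, 0 ≤ x →
      0 ≤ Real.exp (-x) - (1 - x + x ^ (1 + 1) * (1 / 2) - x ^ (2 + 1) * (1 / 6)) :=
    mono _ _ (fun x => (de x).sub ((((d1 x).const_sub 1).add (d2 x)).sub (d3 x))) (by simp)
      (fun x hx => by have := s2 x hx; simp only [pow_one]; norm_num at this ⊢; linarith)
  have s4 : ∀ x : ℝ, 0 ≤ x → 0 ≤ 1 - x + x ^ (1 + 1) * (1 / 2) - x ^ (2 + 1) * (1 / 6)
      + x ^ (3 + 1) * (1 / 24) - Real.exp (-x) :=
    mono _ _ (fun x => ((((d1 x).const_sub 1).add (d2 x)).sub (d3 x)).add (d4 x) |>.sub (de x))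
      (by simp) (fun x hx => by have := s3 x hx; simp only [pow_one]; norm_num at this ⊢; linarith)
  have s5 : ∀ x : ℝ, 0 ≤ x → 0 ≤ Real.exp (-x) - (1 - x + x ^ (1 + 1) * (1 / 2)
      - x ^ (2 + 1) * (1 / 6) + x ^ (3 + 1) * (1 / 24) - x ^ (4 + 1) * (1 / 120)) :=
    mono _ _ (fun x => (de x).sub (((((d1 x).const_sub 1).add (d2 x)).sub (d3 x)).add (d4 x)
      |>.sub (d5 x))) (by simp)
      (fun x hx => by have := s4 x hx; simp only [pow_one]; norm_num at this ⊢; linarith)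
  have h := s5 v hv
  unfold l5
  norm_num at h ⊢
  linarith

/-- the data of the rates -/
structure TDat where
  bt : ℚ
  mb : List ℚ
  bq : List ℚ
  E2 : List ℚ
  K1 : List ℚ
  K2 : List ℚ
  cp : List ℚ
  ep : List ℚ
  kc : List ℚ
  ke : List ℚ

namespace TDat

variable (d : UDat) (t : TDat)

def Cl : List ℚ := pri t.mb

/-- the primitives -/
noncomputable def C (r : ℝ) : ℝ := pv t.Cl r
noncomputable def c (r : ℝ) : ℝ := pv (pri t.cp) r
noncomputable def e2 (r : ℝ) : ℝ := pv (pri t.ep) r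

def tE : E := qc t.bt * wT
def CE : E := pe t.Cl t.tE
def SE : E := d.P (pri d.Mfd) + d.P (pri d.Ud) + d.P (pri d.Qd) + d.P d.de

def hE0 : E := d.P t.E2
def hE2 : E := L5 (SE d) - d.P t.E2
def hK1 : E := d.P t.K1 - (1 - d.P t.E2 ^ 2)
def hK2 : E := d.P t.K2 - (1 - L5 (E.num 7072 10000 * SE d))
def hcp : E := pe t.cp t.tE - pe t.bq t.tE * pe t.K1 t.CE
def hep : E := pe t.ep t.tE - 2 * pe t.mb t.tE * pe t.K2 t.CE
def hmb : E := pe t.mb t.tE - 1
def hkc : E := pe t.kc t.tE - T5 (pe (pri t.cp) t.tE)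
def hke : E := pe t.ke t.tE - T5 (pe (pri t.ep) t.tE)

structure Pos : Prop where
  S0 : N4 (SE d)
  E0 : N4 (t.hE0 d)
  E2 : N4 (t.hE2 d)
  K1 : N4 (t.hK1 d)
  K2 : N4 (t.hK2 d)
  bq : N4 (pe t.bq t.tE)
  cp : N4 t.hcp
  ep : N4 t.hep
  mb : N4 t.hmb
  c0 : N4 (pe t.cp t.tE)
  e0 : N4 (pe t.ep t.tE)
  kc : N4 t.hkc
  ke : N4 t.hke

structure Bd : Prop where
  bt0 : 0 ≤ t.bt
  bt1 : t.bt ≤ 1
  CU : evq t.Cl t.bt ≤ d.U0
  c1 : evq (pri t.cp) t.bt ≤ 1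
  e1 : evq (pri t.ep) t.bt ≤ 1

variable {d : UDat} {t : TDat}

theorem val_tE (X Z U T : ℝ) : (t.tE).val (pt X Z U T) = (t.bt : ℝ) * T := by
  simp only [tE, val_mul, val_qc, val_wT]

theorem val_CE (X Z U T : ℝ) : (t.CE).val (pt X Z U T) = t.C ((t.bt : ℝ) * T) := by
  simp only [CE, val_pe, val_tE]
  rfl

theorem val_SE (X Z U T : ℝ) : (SE d).val (pt X Z U T) = d.us.S ((d.U0 : ℝ) * T) := by
  simp only [SE, val_add, UDat.val_P]
  rfl

section

variable (hP : t.Pos d) (hB : t.Bd d) (uB : d.Bd) (uP : d.Pos)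
include hP hB uB uP

theorem S_nn {u : ℝ} (hu : u ∈ Icc (0 : ℝ) d.U0) : 0 ≤ d.us.S u := by
  obtain ⟨T, hT, rfl⟩ := map_mem (UDat.U0r uP uB) hu
  have h := hP.S0.t hT
  rwa [val_SE] at h

theorem K1_le {u : ℝ} (hu : u ∈ Icc (0 : ℝ) d.U0) :
    1 - Real.exp (-(2 * d.us.S u)) ≤ pv t.K1 u := by
  have S0 := S_nn hP hB uB uP hu
  have h0 := l5_le S0
  obtain ⟨T, hT, rfl⟩ := map_mem (UDat.U0r uP uB) hu
  have h1 := hP.E0.t hT
  have h2 := hP.E2.t hT
  have h3 := hP.K1.t hT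
  simp only [hE0, UDat.val_P] at h1
  simp only [hE2, val_sub, val_L5, val_SE, UDat.val_P] at h2
  simp only [hK1, val_sub, val_pow, val_one, UDat.val_P] at h3
  have e : Real.exp (-(2 * d.us.S ((d.U0 : ℝ) * T)))
      = Real.exp (-d.us.S ((d.U0 : ℝ) * T)) ^ 2 := by
    rw [← Real.exp_nat_mul]
    congr 1
    push_cast
    ring
  rw [e]
  have h4 := pow_le_pow_left₀ h1 (show pv t.E2 ((d.U0 : ℝ) * T)
    ≤ Real.exp (-d.us.S ((d.U0 : ℝ) * T)) by linarith) 2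
  linarith

theorem K2_le {u : ℝ} (hu : u ∈ Icc (0 : ℝ) d.U0) :
    1 - Real.exp (-(7072 / 10000 * d.us.S u)) ≤ pv t.K2 u := by
  have S0 := S_nn hP hB uB uP hu
  have h0 := l5_le (v := 7072 / 10000 * d.us.S u) (by positivity)
  obtain ⟨T, hT, rfl⟩ := map_mem (UDat.U0r uP uB) hu
  have h1 := hP.K2.t hT
  simp only [hK2, val_sub, val_mul, val_L5, val_SE, val_one, UDat.val_P, val_num] at h1
  push_cast at h1
  linarith

theorem bt_nn : (0 : ℝ) ≤ (t.bt : ℝ) := by exact_mod_cast hB.bt0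

theorem mb_one {r : ℝ} (hr : r ∈ Icc (0 : ℝ) t.bt) : 1 ≤ pv t.mb r := by
  obtain ⟨T, hT, rfl⟩ := map_mem (bt_nn hP hB uB uP) hr
  have h := hP.mb.t hT
  simp only [hmb, val_sub, val_pe, val_tE, val_one] at h
  linarith

theorem C0 : t.C 0 = 0 := by
  unfold C Cl
  exact pri_zero _

theorem dC (r : ℝ) : HasDerivAt t.C (pv t.mb r) r := hasDerivAt_pri _ r

theorem C_mem {r : ℝ} (hr : r ∈ Icc (0 : ℝ) t.bt) : t.C r ∈ Icc (0 : ℝ) d.U0 := by
  have mono : MonotoneOn t.C (Icc (0 : ℝ) t.bt) := by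
    refine monotoneOn_of_deriv_nonneg (convex_Icc _ _) (fun z _ =>
      (dC hP hB uB uP z).continuousAt.continuousWithinAt)
      (fun z _ => (dC hP hB uB uP z).differentiableAt.differentiableWithinAt) fun z hz => ?_
    rw [interior_Icc] at hz
    rw [(dC hP hB uB uP z).deriv]
    linarith [mb_one hP hB uB uP (Ioo_subset_Icc_self hz)]
  have b0 := bt_nn hP hB uB uP
  have h1 := mono ⟨le_rfl, b0⟩ hr hr.1
  have h2 := mono hr ⟨b0, le_rfl⟩ hr.2
  rw [C0 hP hB uB uP] at h1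
  have h3 : t.C (t.bt : ℝ) ≤ (d.U0 : ℝ) := by
    unfold C
    rw [pv_evq]
    exact_mod_cast hB.CU
  exact ⟨h1, h2.trans h3⟩

theorem bq_nn {r : ℝ} (hr : r ∈ Icc (0 : ℝ) t.bt) : 0 ≤ pv t.bq r := by
  obtain ⟨T, hT, rfl⟩ := map_mem (bt_nn hP hB uB uP) hr
  have h := hP.bq.t hT
  rwa [val_pe, val_tE] at h

/-- **the first rate** -/
theorem r1_le {r : ℝ} (hr : r ∈ Icc (0 : ℝ) t.bt) :
    pv t.bq r * (1 - Real.exp (-(2 * d.us.S (t.C r - t.C 0)))) ≤ pv t.cp r := by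
  have hm := C_mem hP hB uB uP hr
  have h1 := mul_le_mul_of_nonneg_left (K1_le hP hB uB uP hm) (bq_nn hP hB uB uP hr)
  rw [C0 hP hB uB uP, sub_zero]
  refine h1.trans ?_
  obtain ⟨T, hT, rfl⟩ := map_mem (bt_nn hP hB uB uP) hr
  have h := hP.cp.t hT
  simp only [hcp, val_sub, val_mul, val_pe, val_tE, val_CE] at h
  linarith

/-- **the second rate** -/
theorem r2_le {r : ℝ} (hr : r ∈ Icc (0 : ℝ) t.bt) :
    pv t.mb r * (2 * (1 - Real.exp (-(7072 / 10000 * d.us.S (t.C r - t.C 0))))) ≤ pv t.ep r := by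
  have hm := C_mem hP hB uB uP hr
  have h1 := mul_le_mul_of_nonneg_left (K2_le hP hB uB uP hm)
    (show 0 ≤ 2 * pv t.mb r by linarith [mb_one hP hB uB uP hr])
  rw [C0 hP hB uB uP, sub_zero]
  refine le_trans (le_of_eq (by ring)) (h1.trans ?_)
  obtain ⟨T, hT, rfl⟩ := map_mem (bt_nn hP hB uB uP) hr
  have h := hP.ep.t hT
  simp only [hep, val_sub, val_mul, val_pe, val_tE, val_CE, val_two] at h
  linarith

theorem pri_mem {l : List ℚ} (hl : N4 (pe l t.tE)) (h1 : evq (pri l) t.bt ≤ 1) {r : ℝ}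
    (hr : r ∈ Icc (0 : ℝ) t.bt) : pv (pri l) r ∈ Icc (0 : ℝ) 1 := by
  have b0 := bt_nn hP hB uB uP
  have mono : MonotoneOn (pv (pri l)) (Icc (0 : ℝ) t.bt) := by
    refine monotoneOn_of_deriv_nonneg (convex_Icc _ _) (fun z _ =>
      (hasDerivAt_pri l z).continuousAt.continuousWithinAt)
      (fun z _ => (hasDerivAt_pri l z).differentiableAt.differentiableWithinAt) fun z hz => ?_
    rw [interior_Icc] at hz
    rw [(hasDerivAt_pri l z).deriv]
    obtain ⟨T, hT, rfl⟩ := map_mem b0 (Ioo_subset_Icc_self hz)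
    have h := hl.t hT
    rwa [val_pe, val_tE] at h
  have h2 := mono ⟨le_rfl, b0⟩ hr hr.1
  have h3 := mono hr ⟨b0, le_rfl⟩ hr.2
  rw [pri_zero] at h2
  rw [pv_evq] at h3
  have h4 : ((evq (pri l) t.bt : ℚ) : ℝ) ≤ 1 := by exact_mod_cast h1
  exact ⟨h2, h3.trans h4⟩

theorem exp_c {r : ℝ} (hr : r ∈ Icc (0 : ℝ) t.bt) : Real.exp (t.c r) ≤ pv t.kc r := by
  have hm := pri_mem hP hB uB uP hP.c0 hB.c1 hr
  refine (exp_t5 hm.1 (by linarith [hm.2])).trans ?_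
  obtain ⟨T, hT, rfl⟩ := map_mem (bt_nn hP hB uB uP) hr
  have h := hP.kc.t hT
  simp only [hkc, val_sub, val_T5, val_pe, val_tE] at h
  linarith

theorem exp_e {r : ℝ} (hr : r ∈ Icc (0 : ℝ) t.bt) : Real.exp (t.e2 r) ≤ pv t.ke r := by
  have hm := pri_mem hP hB uB uP hP.e0 hB.e1 hr
  refine (exp_t5 hm.1 (by linarith [hm.2])).trans ?_
  obtain ⟨T, hT, rfl⟩ := map_mem (bt_nn hP hB uB uP) hr
  have h := hP.ke.t hT
  simp only [hke, val_sub, val_T5, val_pe, val_tE] at h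
  linarith

/-- **the majorant of the density errors** -/
theorem exp_ce {r s w : ℝ} (hr : r ∈ Icc (0 : ℝ) t.bt) (hs : s ∈ Icc (0 : ℝ) t.bt) (w0 : 0 ≤ w) :
    Real.exp ((1 - w / 2) * t.c r + t.e2 s) ≤ pv t.kc r * pv t.ke s := by
  have c0 := (pri_mem hP hB uB uP hP.c0 hB.c1 hr).1
  have h1 : (1 - w / 2) * t.c r ≤ t.c r := by
    have : 0 ≤ w * t.c r := mul_nonneg w0 c0
    linarith
  rw [Real.exp_add]
  exact mul_le_mul ((Real.exp_le_exp.2 h1).trans (exp_c hP hB uB uP hr)) (exp_e hP hB uB uP hs)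
    (Real.exp_pos _).le ((Real.exp_pos _).le.trans (exp_c hP hB uB uP hr))

end

end TDat

end Pool.Agent.RX.RCE
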