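import Pool.Agent.RX.RCE.Nn
import Pool.Agent.RX.RCM.EpA

/-! The scalar functions of the density errors as rational polynomials (MP_73ccd0_lc, route M). -/

set_option autoImplicit false

namespace Pool.Agent.RX.RCE

open Set Pool.Agent.RX.RCM9 Pool.Agent.RX.RCM9.Bern Pool.Agent.RX.RCM9.Pk

/-- the data of the scalar functions -/
structure UDat where
  U0 : ℚ
  u1 : ℚ
  u2 : ℚ
  m : ℚ
  q : ℚ
  be : List ℚ
  np : List ℚ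
  g : List ℚ
  c : List ℚ
  gg : List ℚ
  gc : List ℚ
  lam : List ℚ
  sl : List ℚ
  ss : List ℚ
  lA : List ℚ
  sA : List ℚ
  FA : List ℚ
  c3 : List ℚ
  rd : List ℚ
  Gpd : List ℚ
  Gmd : List ℚ
  Pfd : List ℚ
  Mfd : List ℚ
  Wd : List ℚ
  Vd : List ℚ
  Ud : List ℚ
  Qd : List ℚ
  de : List ℚ

namespace UDat

variable (d : UDat)

def Nl : List ℚ := pri d.np
def Yl : List ℚ := pri (pri d.np)

/-! ### the instance -/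

noncomputable def us : RCM.Us where
  th u := u
  be := pv d.be
  Y := pv d.Yl
  Y' := pv d.Nl
  N := pv d.Nl
  N' := pv d.np
  g := pv d.g
  c := pv d.c
  lam := pv d.lam
  sl := pv d.sl
  ss := pv d.ss
  lA := pv d.lA
  sA := pv d.sA
  FA := pv d.FA
  Rb u := pv d.gg u + 2 / 3 * pv d.gc u
  rd := pv d.rd
  c3 := pv d.c3
  Gp := pv (pri d.Gpd)
  Gp' := pv d.Gpd
  Gm := pv (pri d.Gmd)
  Gm' := pv d.Gmd
  Pf := pv (pri d.Pfd)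
  Pf' := pv d.Pfd
  Mf := pv (pri d.Mfd)
  Mf' := pv d.Mfd
  W := pv (pri d.Wd)
  W' := pv d.Wd
  Vv := pv (pri d.Vd)
  Vv' := pv d.Vd
  Uu := pv (pri d.Ud)
  Uu' := pv d.Ud
  Q := pv (pri d.Qd)
  Q' := pv d.Qd
  I0 u := pv (pri d.gg) u + 2 / 3 * pv (pri d.gc) u
  I0' u := pv d.gg u + 2 / 3 * pv d.gc u
  I1 u := 1 / 3 * pv (pri d.gc) u
  I1' u := 1 / 3 * pv d.gc u
  δ := pv d.de
  m := d.m
  q := d.q
  U0 := d.U0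

/-! ### expressions -/

def uE : E := qc d.U0 * wT
def uA : E := qc d.u1 * wT
def uB : E := qc d.u1 + qc (d.U0 - d.u1) * wT
def uC : E := qc d.u2 * wT
def uD : E := qc d.u2 + qc (d.U0 - d.u2) * wT
def P (l : List ℚ) : E := pe l d.uE
def aE (u : E) : E := u - pe d.Yl u
def eRb : E := d.P d.gg + E.num 2 3 * d.P d.gc
def eRL : E := d.eRb + d.P d.lam
def ec1 : E := qc d.q * (1 + d.P d.be)
def ec4 : E := qc d.q * (1 + d.P d.be + d.P d.be * E.num 1 4)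
def eψ (v : E) : E := 1 + (1 + qc (d.q * d.m)) * d.P d.be * E.num 1 4 + qc (d.q * d.m) * v
def edT : E := d.P d.c3 * (d.P d.be * (d.P d.sl * d.P d.g * E.num 1 2 + d.P d.rd))
  + d.eRL * d.ec4 * d.P (pri d.Vd)
def eWU : E := d.P (pri d.Wd) + d.P (pri d.Ud)
def eZx (u x : E) : E := pe (pri d.Wd) u + pe (pri d.Ud) u + x * u
  + (1 - x) * ((pe (pri d.gg) u + E.num 2 3 * pe (pri d.gc) u) + x * (E.num 1 3 * pe (pri d.gc) u))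

def oN : E := d.P d.np - (T5 (E.num 2 3 * d.uE + E.num 1 3 * d.P d.Yl) - 1)
def eg : E := d.P d.g - T5 (d.P d.Yl)
def ec : E := d.P d.c - (T5 (d.aE d.uE) - 1)
def ec3c : E := (1 - d.aE d.uE) * (1 + E.num 2 3 * d.aE d.uE) - E.num 1 3 * d.P d.c
def egg : E := d.P d.gg - d.P d.g ^ 2
def egc : E := d.P d.gc - d.P d.g ^ 2 * d.P d.c
def elam1 : E := pe d.lam d.uA - pe d.gg d.uA
def ea1 : E := 1 - 2 * d.aE d.uA
def elam2 : E := pe d.lam d.uB - pe d.gg d.uB * (1 + (2 * d.aE d.uB - 1) ^ 2 * E.num 1 2)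
def esl : E := d.P d.sl ^ 2 - d.P d.lam
def ess : E := 2 * d.P d.ss - T5 (d.P d.Yl + E.num 1 2 * d.aE d.uE + E.num 1 8 * d.aE d.uE ^ 2)
def elA : E := d.P d.lA - (1 - wX) * (T5 (2 * wX * d.aE d.uE + 2 * d.P d.Yl) - 1)
def eμ : E := 1 - E.num 13 20 * wX
def esA : E := 2 * eμ * d.P d.sA - wX * ((1 - wX) + (1 - wZ) * eμ ^ 2)
  * (T5 (d.aE d.uE * (wX + wZ) + 2 * d.P d.Yl) - 1)
def eFA : E := d.P d.FA ^ 2 - d.P d.lA * d.P d.sA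
def erd0 : E := d.P d.rd - E.num 1 2 * d.eRb
def erd : E := (d.P d.c3 * d.P d.rd) ^ 2
  - wX * ((1 - wX) * (d.P d.gg + d.P d.gc * (2 + wX) * E.num 1 3) * d.eψ wX) ^ 2
def eψi : E := (E.num 1 2 * d.P d.c3) ^ 2 - wX * (1 - wX) * d.eψ wX ^ 2
def oGp : E := d.P d.Gpd - (d.P d.lA + 2 * (d.P d.lam * d.P (pri d.Gmd))
  + d.eRL * (d.P (pri d.Gpd) ^ 2 + d.P (pri d.Gmd) ^ 2))
def oGm : E := d.P d.Gmd - (2 * d.P d.Nl + 2 * (d.P d.lam * d.P (pri d.Gpd))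
  + 2 * (d.eRL * (d.P (pri d.Gpd) * d.P (pri d.Gmd))))
def oPf : E := d.P d.Pfd - (d.P d.FA + (d.P d.ss * d.P d.sl * d.P (pri d.Gmd)
  + d.P (pri d.Mfd) * d.P d.lam)
  + d.eRL * (d.P (pri d.Pfd) * d.P (pri d.Gpd) + d.P (pri d.Mfd) * d.P (pri d.Gmd)))
def oMf : E := d.P d.Mfd - (d.P d.Nl + (d.P d.ss * d.P d.sl * d.P (pri d.Gpd)
  + d.P (pri d.Pfd) * d.P d.lam)
  + d.eRL * (d.P (pri d.Mfd) * d.P (pri d.Gpd) + d.P (pri d.Pfd) * d.P (pri d.Gmd)))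
def oW : E := d.P d.Wd - d.P d.sl * d.P d.be * d.P d.g * E.num 1 2
def oV : E := d.P d.Vd - ((d.P d.lam + d.eRL * d.P (pri d.Gmd)) * d.eWU + d.P (pri d.Gpd) * d.edT)
def oU : E := d.P d.Ud - (d.P d.lam * (d.ec1 * d.P (pri d.Vd))
  + d.eRL * d.P (pri d.Gpd) * d.eWU + d.P (pri d.Gmd) * d.edT)
def oQ : E := d.P d.Qd - (d.P d.ss * d.P d.be * d.P d.g * E.num 1 2
  + d.P d.sl * d.P d.be * d.P d.g * E.num 1 4
  + (d.P d.ss * d.P d.sl * (d.ec1 * d.P (pri d.Vd)) + d.eRL * d.P (pri d.Pfd) * d.eWU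
    + d.P (pri d.Mfd) * d.edT) + 2 * d.eWU * d.edT)
def em : E := qc d.m - E.num 14143 10000 * d.P (pri d.Vd)
def ede1 : E := E.num 17 25 - d.eZx d.uC wX
def ede2 : E := pe d.de d.uD ^ 2 - wX * (1 - wX) * (d.eZx d.uD wX - E.num 17 25) ^ 4 * E.num 1 4

/-- the polynomial inequalities -/
structure Pos : Prop where
  be0 : N4 (d.P d.be)
  Y0 : N4 (d.P d.Yl)
  Yth : N4 (d.aE d.uE)
  aY : N4 (1 - d.aE d.uE)
  N0 : N4 (d.P d.Nl)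
  N1 : N4 (1 - d.P d.Nl)
  oN : N4 d.oN
  g : N4 d.eg
  c : N4 d.ec
  c3c : N4 d.ec3c
  gg : N4 d.egg
  gc : N4 d.egc
  lam1 : N4 d.elam1
  a1 : N4 d.ea1
  lam2 : N4 d.elam2
  sl0 : N4 (d.P d.sl)
  sl : N4 d.esl
  ss : N4 d.ess
  lA0 : N4 (d.P d.lA)
  lA : N4 d.elA
  sA0 : N4 (d.P d.sA)
  sA : N4 d.esA
  FA0 : N4 (d.P d.FA)
  FA : N4 d.eFA
  rd0 : N4 d.erd0
  rd : N4 d.erd
  c30 : N4 (d.P d.c3)
  psi : N4 d.eψi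
  Gp0 : N4 (d.P (pri d.Gpd))
  Gm0 : N4 (d.P (pri d.Gmd))
  Pf0 : N4 (d.P (pri d.Pfd))
  Mf0 : N4 (d.P (pri d.Mfd))
  W0 : N4 (d.P (pri d.Wd))
  V0 : N4 (d.P (pri d.Vd))
  Uu0 : N4 (d.P (pri d.Ud))
  oGp : N4 d.oGp
  oGm : N4 d.oGm
  oPf : N4 d.oPf
  oMf : N4 d.oMf
  oW : N4 d.oW
  oV : N4 d.oV
  oU : N4 d.oU
  oQ : N4 d.oQ
  m : N4 d.em
  de0 : N4 (d.P d.de)
  de1 : N4 d.ede1
  de2 : N4 d.ede2

/-- the numerical conditions -/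
structure Bd : Prop where
  U0 : 0 ≤ d.U0
  U1 : d.U0 ≤ 81 / 100
  u1 : 0 ≤ d.u1
  u1' : d.u1 ≤ d.U0
  u2 : 0 ≤ d.u2
  u2' : d.u2 ≤ d.U0
  m0 : 0 ≤ d.m
  m1 : d.m ≤ 3 / 2
  q0 : 0 ≤ d.q
  hq : 1 + d.m + d.m ^ 2 / 2 + d.m ^ 3 / 6 + d.m ^ 4 / 24 + d.m ^ 5 / 88 - 1 ≤ d.q * d.m

end UDat

end Pool.Agent.RX.RCE
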