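import Pool.Agent.RX.RCE.UDat

/-! The scalar conditions of the density errors from the certificate (MP_73ccd0_lc, route M). -/

set_option autoImplicit false
set_option linter.unusedSectionVars false

namespace Pool.Agent.RX.RCE

open Set Pool.Agent.RX.RCM9 Pool.Agent.RX.RCM9.Bern Pool.Agent.RX.RCM9.Pk

namespace UDat

variable {d : UDat}

theorem val_P (X Z U T : ℝ) (l : List ℚ) : (d.P l).val (pt X Z U T) = pv l ((d.U0 : ℝ) * T) := by
  simp only [P, uE, val_pe, val_mul, val_qc, val_wT]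

theorem val_aE (ρ : ℕ → ℝ) (u : E) : (d.aE u).val ρ = u.val ρ - pv d.Yl (u.val ρ) := by
  simp only [aE, val_sub, val_pe]

theorem val_uE (X Z U T : ℝ) : (d.uE).val (pt X Z U T) = (d.U0 : ℝ) * T := by
  simp only [uE, val_mul, val_qc, val_wT]

theorem val_uA (X Z U T : ℝ) : (d.uA).val (pt X Z U T) = (d.u1 : ℝ) * T := by
  simp only [uA, val_mul, val_qc, val_wT]

theorem val_uC (X Z U T : ℝ) : (d.uC).val (pt X Z U T) = (d.u2 : ℝ) * T := by
  simp only [uC, val_mul, val_qc, val_wT]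

theorem val_uB (X Z U T : ℝ) :
    (d.uB).val (pt X Z U T) = (d.u1 : ℝ) + ((d.U0 : ℝ) - (d.u1 : ℝ)) * T := by
  simp only [uB, val_add, val_mul, val_qc, val_wT]
  push_cast
  ring

theorem val_uD (X Z U T : ℝ) :
    (d.uD).val (pt X Z U T) = (d.u2 : ℝ) + ((d.U0 : ℝ) - (d.u2 : ℝ)) * T := by
  simp only [uD, val_add, val_mul, val_qc, val_wT]
  push_cast
  ring

theorem val_eRb (X Z U T : ℝ) : (d.eRb).val (pt X Z U T) = d.us.Rb ((d.U0 : ℝ) * T) := by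
  simp only [eRb, val_add, val_mul, val_P, val_num]
  show _ = pv d.gg _ + 2 / 3 * pv d.gc _
  push_cast
  ring

theorem val_eRL (X Z U T : ℝ) : (d.eRL).val (pt X Z U T)
    = d.us.Rb ((d.U0 : ℝ) * T) + pv d.lam ((d.U0 : ℝ) * T) := by
  simp only [eRL, val_add, val_P, val_eRb]

theorem val_ec1 (X Z U T : ℝ) : (d.ec1).val (pt X Z U T) = d.us.c1 ((d.U0 : ℝ) * T) := by
  simp only [ec1, val_add, val_mul, val_P, val_qc, val_one]
  rfl

theorem val_ec4 (X Z U T : ℝ) : (d.ec4).val (pt X Z U T) = d.us.c4 ((d.U0 : ℝ) * T) := by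
  simp only [ec4, val_add, val_mul, val_P, val_qc, val_one, val_num]
  show _ = (d.q : ℝ) * (1 + pv d.be _ + pv d.be _ / 4)
  push_cast
  ring

theorem val_eψ (X Z U T : ℝ) (v : E) : (d.eψ v).val (pt X Z U T)
    = d.us.ψ ((d.U0 : ℝ) * T) (v.val (pt X Z U T)) := by
  simp only [eψ, val_add, val_mul, val_P, val_qc, val_one, val_num]
  show _ = 1 + (1 + (d.q : ℝ) * (d.m : ℝ)) * pv d.be _ / 4 + (d.q : ℝ) * (d.m : ℝ) * _
  push_cast
  ring

theorem val_edT (X Z U T : ℝ) : (d.edT).val (pt X Z U T) = d.us.dT ((d.U0 : ℝ) * T) := by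
  simp only [edT, val_add, val_mul, val_P, val_num, val_eRL, val_ec4]
  show _ = pv d.c3 _ * (pv d.be _ * (pv d.sl _ * pv d.g _ / 2 + pv d.rd _))
    + (d.us.Rb _ + pv d.lam _) * d.us.c4 _ * pv (pri d.Vd) _
  push_cast
  ring

theorem val_eWU (X Z U T : ℝ) : (d.eWU).val (pt X Z U T)
    = d.us.W ((d.U0 : ℝ) * T) + d.us.Uu ((d.U0 : ℝ) * T) := by
  simp only [eWU, val_add, val_P]
  rfl

theorem val_eZx (ρ : ℕ → ℝ) (u x : E) : (d.eZx u x).val ρ = d.us.Zx (u.val ρ) (x.val ρ) := by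
  simp only [eZx, val_add, val_sub, val_mul, val_pe, val_one, val_num]
  show _ = pv (pri d.Wd) (u.val ρ) + pv (pri d.Ud) (u.val ρ) + x.val ρ * u.val ρ
    + (1 - x.val ρ) * ((pv (pri d.gg) (u.val ρ) + 2 / 3 * pv (pri d.gc) (u.val ρ))
      + x.val ρ * (1 / 3 * pv (pri d.gc) (u.val ρ)))
  push_cast
  ring

theorem val_eμ (X Z U T : ℝ) : eμ.val (pt X Z U T) = 1 - 13 / 20 * X := by
  simp only [eμ, val_sub, val_mul, val_one, val_num, val_wX]
  push_cast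
  ring

theorem sqrt_amgm {k l μ : ℝ} (hk : k ≤ 1) (hl : l ≤ 1) :
    2 * μ * (Real.sqrt (1 - k) * Real.sqrt (1 - l)) ≤ (1 - k) + (1 - l) * μ ^ 2 := by
  have h1 := Real.sq_sqrt (by linarith : 0 ≤ 1 - k)
  have h2 := Real.sq_sqrt (by linarith : 0 ≤ 1 - l)
  have h3 := sq_nonneg (Real.sqrt (1 - k) - μ * Real.sqrt (1 - l))
  nlinarith

section

variable (hP : d.Pos) (hB : d.Bd)
include hP hB

theorem U0r : (0 : ℝ) ≤ (d.U0 : ℝ) := by exact_mod_cast hB.U0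

theorem a_nn {u : ℝ} (hu : u ∈ Icc (0 : ℝ) d.U0) : 0 ≤ u - pv d.Yl u := by
  obtain ⟨T, hT, rfl⟩ := map_mem (U0r hP hB) hu
  have h := hP.Yth.t hT
  rwa [val_aE, val_uE] at h

theorem Y_nn {u : ℝ} (hu : u ∈ Icc (0 : ℝ) d.U0) : 0 ≤ pv d.Yl u := by
  obtain ⟨T, hT, rfl⟩ := map_mem (U0r hP hB) hu
  have h := hP.Y0.t hT
  rwa [val_P] at h

theorem u_le {u : ℝ} (hu : u ∈ Icc (0 : ℝ) d.U0) : u ≤ 81 / 100 := by
  have h1 : (d.U0 : ℝ) ≤ 81 / 100 := by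
    have h : (d.U0 : ℝ) ≤ ((81 / 100 : ℚ) : ℝ) := by exact_mod_cast hB.U1
    push_cast at h
    exact h
  exact hu.2.trans h1

theorem P_nn {l : List ℚ} (h : N4 (d.P l)) {u : ℝ} (hu : u ∈ Icc (0 : ℝ) d.U0) : 0 ≤ pv l u := by
  obtain ⟨T, hT, rfl⟩ := map_mem (U0r hP hB) hu
  have h1 := h.t hT
  rwa [val_P] at h1

theorem g_le {u : ℝ} (hu : u ∈ Icc (0 : ℝ) d.U0) : Real.exp (pv d.Yl u) ≤ pv d.g u := by
  have a0 := a_nn hP hB hu
  have y0 := Y_nn hP hB hu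
  have u8 := u_le hP hB hu
  refine (exp_t5 y0 (by linarith)).trans ?_
  obtain ⟨T, hT, rfl⟩ := map_mem (U0r hP hB) hu
  have h := hP.g.t hT
  simp only [eg, val_sub, val_P, val_T5] at h
  linarith

theorem c_le {u : ℝ} (hu : u ∈ Icc (0 : ℝ) d.U0) : Real.exp (u - pv d.Yl u) - 1 ≤ pv d.c u := by
  have a0 := a_nn hP hB hu
  have y0 := Y_nn hP hB hu
  have u8 := u_le hP hB hu
  have h1 := exp_t5 a0 (by linarith)
  obtain ⟨T, hT, rfl⟩ := map_mem (U0r hP hB) hu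
  have h := hP.c.t hT
  simp only [ec, val_sub, val_P, val_T5, val_one, val_aE, val_uE] at h
  linarith

theorem gg_le {u : ℝ} (hu : u ∈ Icc (0 : ℝ) d.U0) : pv d.g u ^ 2 ≤ pv d.gg u := by
  obtain ⟨T, hT, rfl⟩ := map_mem (U0r hP hB) hu
  have h := hP.gg.t hT
  simp only [egg, val_sub, val_P, val_pow] at h
  linarith

theorem gc_le {u : ℝ} (hu : u ∈ Icc (0 : ℝ) d.U0) : pv d.g u ^ 2 * pv d.c u ≤ pv d.gc u := by
  obtain ⟨T, hT, rfl⟩ := map_mem (U0r hP hB) hu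
  have h := hP.gc.t hT
  simp only [egc, val_sub, val_mul, val_P, val_pow] at h
  linarith

theorem lam_le {u : ℝ} (hu : u ∈ Icc (0 : ℝ) d.U0) :
    pv d.g u ^ 2 * (1 + (max 0 (2 * (u - pv d.Yl u) - 1)) ^ 2 / 2) ≤ pv d.lam u := by
  have hg := gg_le hP hB hu
  have g0 := sq_nonneg (pv d.g u)
  have h1 : (0 : ℝ) ≤ (d.u1 : ℝ) := by exact_mod_cast hB.u1
  have h2 : (d.u1 : ℝ) ≤ (d.U0 : ℝ) := by exact_mod_cast hB.u1'
  rcases le_total u (d.u1 : ℝ) with h | h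
  · obtain ⟨T, hT, hT2⟩ := map_mem h1 ⟨hu.1, h⟩
    have h3 := hP.lam1.t hT
    have h4 := hP.a1.t hT
    simp only [elam1, val_sub, val_pe, val_uA] at h3
    simp only [ea1, val_sub, val_mul, val_one, val_two, val_aE, val_uA] at h4
    rw [hT2] at h3 h4
    rw [max_eq_left (by linarith)]
    linarith
  · obtain ⟨T, hT, hT2⟩ := map_mem2 (a := (d.u1 : ℝ)) (b := (d.U0 : ℝ)) ⟨h, hu.2⟩
    have h3 := hP.lam2.t hT
    simp only [elam2, val_sub, val_mul, val_add, val_pow, val_one, val_two, val_pe, val_aE, val_uB,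
      val_num] at h3
    rw [hT2] at h3
    have h5 : (max 0 (2 * (u - pv d.Yl u) - 1)) ^ 2 ≤ (2 * (u - pv d.Yl u) - 1) ^ 2 := by
      rcases le_total 0 (2 * (u - pv d.Yl u) - 1) with h6 | h6
      · rw [max_eq_right h6]
      · rw [max_eq_left h6]
        have := sq_nonneg (2 * (u - pv d.Yl u) - 1)
        linarith
    have h7 : pv d.g u ^ 2 * (1 + (max 0 (2 * (u - pv d.Yl u) - 1)) ^ 2 / 2)
        ≤ pv d.gg u * (1 + (2 * (u - pv d.Yl u) - 1) ^ 2 / 2) :=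
      mul_le_mul hg (by linarith) (by positivity) (g0.trans hg)
    refine h7.trans ?_
    push_cast at h3
    linarith

theorem ss_le {u : ℝ} (hu : u ∈ Icc (0 : ℝ) d.U0) :
    Real.exp (pv d.Yl u + (u - pv d.Yl u) / 2 + (u - pv d.Yl u) ^ 2 / 8) ≤ 2 * pv d.ss u := by
  have a0 := a_nn hP hB hu
  have y0 := Y_nn hP hB hu
  have u8 := u_le hP hB hu
  have a1 : (u - pv d.Yl u) ^ 2 ≤ 1 := by nlinarith
  refine (exp_t5 (by positivity) (by linarith)).trans ?_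
  obtain ⟨T, hT, rfl⟩ := map_mem (U0r hP hB) hu
  have h := hP.ss.t hT
  simp only [ess, val_sub, val_add, val_mul, val_pow, val_P, val_T5, val_two, val_aE, val_uE,
    val_num] at h
  have e : pv d.Yl ((d.U0 : ℝ) * T) + ((1 : ℤ) : ℝ) / ((2 : ℕ) : ℝ)
      * ((d.U0 : ℝ) * T - pv d.Yl ((d.U0 : ℝ) * T)) + ((1 : ℤ) : ℝ) / ((8 : ℕ) : ℝ)
      * ((d.U0 : ℝ) * T - pv d.Yl ((d.U0 : ℝ) * T)) ^ 2
      = pv d.Yl ((d.U0 : ℝ) * T) + ((d.U0 : ℝ) * T - pv d.Yl ((d.U0 : ℝ) * T)) / 2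
        + ((d.U0 : ℝ) * T - pv d.Yl ((d.U0 : ℝ) * T)) ^ 2 / 8 := by
    push_cast
    ring
  rw [e] at h
  linarith

theorem E_bd {u : ℝ} (hu : u ∈ Icc (0 : ℝ) d.U0) {k l : ℝ} (hk : k ∈ Icc (0 : ℝ) 1)
    (hl : l ∈ Icc (0 : ℝ) 1) : 0 ≤ Real.exp ((u - pv d.Yl u) * (k + l) + 2 * pv d.Yl u) - 1 ∧
      Real.exp ((u - pv d.Yl u) * (k + l) + 2 * pv d.Yl u)
        ≤ t5 ((u - pv d.Yl u) * (k + l) + 2 * pv d.Yl u) := by
  have a0 := a_nn hP hB hu
  have y0 := Y_nn hP hB hu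
  have u8 := u_le hP hB hu
  have kl : 0 ≤ k + l := add_nonneg hk.1 hl.1
  have z0 : 0 ≤ (u - pv d.Yl u) * (k + l) + 2 * pv d.Yl u := by positivity
  have z1 : (u - pv d.Yl u) * (k + l) ≤ (u - pv d.Yl u) * 2 :=
    mul_le_mul_of_nonneg_left (by linarith [hk.2, hl.2]) a0
  exact ⟨by have := Real.one_le_exp z0; linarith, exp_t5 z0 (by linarith)⟩

theorem lA_le {u : ℝ} (hu : u ∈ Icc (0 : ℝ) d.U0) {k l : ℝ} (hk : k ∈ Icc (0 : ℝ) 1)
    (hl : l ∈ Icc (0 : ℝ) 1) : Real.sqrt (1 - k) * Real.sqrt (1 - l)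
    * (Real.exp ((u - pv d.Yl u) * (k + l) + 2 * pv d.Yl u) - 1) ≤ pv d.lA u := by
  obtain ⟨e0, e1⟩ := E_bd hP hB hu hk hl
  have h1 := sqrt_amgm (μ := 1) hk.2 hl.2
  have m1 : (k + l) / 2 ∈ Icc (0 : ℝ) 1 := ⟨by linarith [hk.1, hl.1], by linarith [hk.2, hl.2]⟩
  have h2 : Real.sqrt (1 - k) * Real.sqrt (1 - l) ≤ 1 - (k + l) / 2 := by linarith
  refine (mul_le_mul_of_nonneg_right h2 e0).trans ?_
  refine (mul_le_mul_of_nonneg_left (sub_le_sub_right e1 1) (by linarith [m1.2])).trans ?_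
  obtain ⟨T, hT, rfl⟩ := map_mem (U0r hP hB) hu
  have h := hP.lA.xt m1 hT
  simp only [elA, val_sub, val_add, val_mul, val_P, val_T5, val_one, val_two, val_aE, val_uE,
    val_wX] at h
  have e : 2 * ((k + l) / 2) * ((d.U0 : ℝ) * T - pv d.Yl ((d.U0 : ℝ) * T))
      + 2 * pv d.Yl ((d.U0 : ℝ) * T)
      = ((d.U0 : ℝ) * T - pv d.Yl ((d.U0 : ℝ) * T)) * (k + l) + 2 * pv d.Yl ((d.U0 : ℝ) * T) := by
    ring
  rw [e] at h
  linarith

theorem sA_le {u : ℝ} (hu : u ∈ Icc (0 : ℝ) d.U0) {k l : ℝ} (hk : k ∈ Icc (0 : ℝ) 1)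
    (hl : l ∈ Icc (0 : ℝ) 1) : k * (Real.sqrt (1 - k) * Real.sqrt (1 - l)
    * (Real.exp ((u - pv d.Yl u) * (k + l) + 2 * pv d.Yl u) - 1)) ≤ pv d.sA u := by
  obtain ⟨e0, e1⟩ := E_bd hP hB hu hk hl
  have μ0 : 0 < 1 - 13 / 20 * k := by linarith [hk.2]
  have h1 := sqrt_amgm (μ := 1 - 13 / 20 * k) hk.2 hl.2
  obtain ⟨T, hT, rfl⟩ := map_mem (U0r hP hB) hu
  have h := hP.sA.xzt hk hl hT
  simp only [esA, val_sub, val_add, val_mul, val_pow, val_P, val_T5, val_one, val_two, val_aE,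
    val_uE, val_wX, val_wZ, val_eμ] at h
  set z := ((d.U0 : ℝ) * T - pv d.Yl ((d.U0 : ℝ) * T)) * (k + l) + 2 * pv d.Yl ((d.U0 : ℝ) * T)
  have h2 := mul_le_mul_of_nonneg_right h1 (mul_nonneg hk.1 e0)
  have b0 : 0 ≤ (1 - k) + (1 - l) * (1 - 13 / 20 * k) ^ 2 :=
    add_nonneg (by linarith [hk.2]) (mul_nonneg (by linarith [hl.2]) (sq_nonneg _))
  have h3 := mul_le_mul_of_nonneg_left (sub_le_sub_right e1 1) (mul_nonneg b0 hk.1)
  have h4 : 2 * (1 - 13 / 20 * k) * (k * (Real.sqrt (1 - k) * Real.sqrt (1 - l)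
      * (Real.exp z - 1))) ≤ 2 * (1 - 13 / 20 * k) * pv d.sA ((d.U0 : ℝ) * T) := by
    nlinarith
  exact le_of_mul_le_mul_left h4 (by linarith)

theorem rd_le {u : ℝ} (hu : u ∈ Icc (0 : ℝ) d.U0) {v : ℝ} (hv : v ∈ Icc (0 : ℝ) 1) :
    v * ((1 - v) * (pv d.g u ^ 2 * (1 + pv d.c u * (1 - (1 - v) / 3))) * d.us.ψ u v) ^ 2
      ≤ (pv d.c3 u * pv d.rd u) ^ 2 := by
  have hg := gg_le hP hB hu
  have hc := gc_le hP hB hu
  have g0 := sq_nonneg (pv d.g u)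
  have c0 : 0 ≤ pv d.c u := by
    have h1 := Real.one_le_exp (a_nn hP hB hu)
    linarith [c_le hP hB hu]
  have be0 := P_nn hP hB hP.be0 hu
  have q0 : (0 : ℝ) ≤ (d.q : ℝ) := by exact_mod_cast hB.q0
  have m0 : (0 : ℝ) ≤ (d.m : ℝ) := by exact_mod_cast hB.m0
  have ψ0 : 0 ≤ d.us.ψ u v := by
    show 0 ≤ 1 + (1 + (d.q : ℝ) * (d.m : ℝ)) * pv d.be u / 4 + (d.q : ℝ) * (d.m : ℝ) * v
    have := hv.1
    positivity
  have v1 : 0 ≤ 1 - v := by linarith [hv.2]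
  have e1 : pv d.g u ^ 2 * (1 + pv d.c u * (1 - (1 - v) / 3))
      ≤ pv d.gg u + pv d.gc u * (2 + v) / 3 := by
    have := mul_le_mul_of_nonneg_right hc (by linarith [hv.1] : 0 ≤ (2 + v) / 3)
    nlinarith
  have e0 : 0 ≤ pv d.g u ^ 2 * (1 + pv d.c u * (1 - (1 - v) / 3)) := by
    have : 0 ≤ 1 - (1 - v) / 3 := by linarith [hv.1]
    positivity
  have e2 : (1 - v) * (pv d.g u ^ 2 * (1 + pv d.c u * (1 - (1 - v) / 3))) * d.us.ψ u v
      ≤ (1 - v) * (pv d.gg u + pv d.gc u * (2 + v) / 3) * d.us.ψ u v :=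
    mul_le_mul_of_nonneg_right (mul_le_mul_of_nonneg_left e1 v1) ψ0
  have e3 := pow_le_pow_left₀ (mul_nonneg (mul_nonneg v1 e0) ψ0) e2 2
  refine (mul_le_mul_of_nonneg_left e3 hv.1).trans ?_
  obtain ⟨T, hT, rfl⟩ := map_mem (U0r hP hB) hu
  have h := hP.rd.xt hv hT
  simp only [erd, val_sub, val_add, val_mul, val_pow, val_P, val_one, val_two, val_eψ, val_wX,
    val_num] at h
  have e : (pv d.gg ((d.U0 : ℝ) * T) + pv d.gc ((d.U0 : ℝ) * T) * (2 + v) * (((1 : ℤ) : ℝ)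
      / ((3 : ℕ) : ℝ))) = pv d.gg ((d.U0 : ℝ) * T) + pv d.gc ((d.U0 : ℝ) * T) * (2 + v) / 3 := by
    push_cast
    ring
  rw [e] at h
  linarith

theorem psi_le {u : ℝ} (hu : u ∈ Icc (0 : ℝ) d.U0) {v : ℝ} (hv : v ∈ Icc (0 : ℝ) 1) :
    v * (1 - v) * d.us.ψ u v ^ 2 ≤ (pv d.c3 u / 2) ^ 2 := by
  obtain ⟨T, hT, rfl⟩ := map_mem (U0r hP hB) hu
  have h := hP.psi.xt hv hT
  simp only [eψi, val_sub, val_mul, val_pow, val_P, val_one, val_eψ, val_wX, val_num] at h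
  have e : (((1 : ℤ) : ℝ) / ((2 : ℕ) : ℝ)) * pv d.c3 ((d.U0 : ℝ) * T)
      = pv d.c3 ((d.U0 : ℝ) * T) / 2 := by
    push_cast
    ring
  rw [e] at h
  linarith

theorem de_le {u : ℝ} (hu : u ∈ Icc (0 : ℝ) d.U0) {x : ℝ} (hx : x ∈ Icc (0 : ℝ) 1) :
    x * (1 - x) * ((max 0 (d.us.Zx u x - 17 / 25)) ^ 2 / 2) ^ 2 ≤ pv d.de u ^ 2 := by
  have h1 : (0 : ℝ) ≤ (d.u2 : ℝ) := by exact_mod_cast hB.u2
  have xx : 0 ≤ x * (1 - x) := mul_nonneg hx.1 (by linarith [hx.2])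
  rcases le_total u (d.u2 : ℝ) with h | h
  · obtain ⟨T, hT, hT2⟩ := map_mem h1 ⟨hu.1, h⟩
    have h3 := hP.de1.xt hx hT
    simp only [ede1, val_sub, val_eZx, val_uC, val_wX, val_num] at h3
    rw [hT2] at h3
    push_cast at h3
    rw [max_eq_left (by linarith)]
    have := sq_nonneg (pv d.de u)
    simpa using this
  · obtain ⟨T, hT, hT2⟩ := map_mem2 (a := (d.u2 : ℝ)) (b := (d.U0 : ℝ)) ⟨h, hu.2⟩
    have h3 := hP.de2.xt hx hT
    simp only [ede2, val_sub, val_mul, val_pow, val_one, val_pe, val_eZx, val_uD, val_wX,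
      val_num] at h3
    rw [hT2] at h3
    push_cast at h3
    have h5 : (max 0 (d.us.Zx u x - 17 / 25)) ^ 2 ≤ (d.us.Zx u x - 17 / 25) ^ 2 := by
      rcases le_total 0 (d.us.Zx u x - 17 / 25) with h6 | h6
      · rw [max_eq_right h6]
      · rw [max_eq_left h6]
        have := sq_nonneg (d.us.Zx u x - 17 / 25)
        linarith
    have h6 : ((max 0 (d.us.Zx u x - 17 / 25)) ^ 2 / 2) ^ 2
        ≤ ((d.us.Zx u x - 17 / 25) ^ 2 / 2) ^ 2 :=
      pow_le_pow_left₀ (by positivity) (by linarith) 2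
    refine (mul_le_mul_of_nonneg_left h6 xx).trans ?_
    nlinarith

/-- **the scalar conditions** -/
theorem ok : d.us.Ok where
  U0 := U0r hP hB
  m0 := by show (0 : ℝ) ≤ (d.m : ℝ); exact_mod_cast hB.m0
  q0 := by show (0 : ℝ) ≤ (d.q : ℝ); exact_mod_cast hB.q0
  hq := by
    show Real.exp (d.m : ℝ) - 1 ≤ (d.q : ℝ) * (d.m : ℝ)
    have m0 : (0 : ℝ) ≤ (d.m : ℝ) := by exact_mod_cast hB.m0
    have m1 : (d.m : ℝ) ≤ ((3 / 2 : ℚ) : ℝ) := by exact_mod_cast hB.m1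
    push_cast at m1
    have h1 := exp_t5 m0 (by linarith)
    have h2 : ((1 + d.m + d.m ^ 2 / 2 + d.m ^ 3 / 6 + d.m ^ 4 / 24 + d.m ^ 5 / 88 - 1 : ℚ) : ℝ)
        ≤ ((d.q * d.m : ℚ) : ℝ) := by exact_mod_cast hB.hq
    push_cast at h2
    unfold t5 at h1
    linarith
  cth := continuous_id
  cbe := continuous_pv _
  cg := continuous_pv _
  clam := continuous_pv _
  csl := continuous_pv _
  cRb := (continuous_pv _).add (continuous_const.mul (continuous_pv _))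
  css := continuous_pv _
  cc3 := continuous_pv _
  crd := continuous_pv _
  cI0 := (continuous_pv _).add (continuous_const.mul (continuous_pv _))
  cI1 := continuous_const.mul (continuous_pv _)
  be0 u hu := P_nn hP hB hP.be0 hu
  Y0 u hu := Y_nn hP hB hu
  Yth u hu := by have := a_nn hP hB hu; show pv d.Yl u ≤ u; linarith
  aY u hu := by
    show u - pv d.Yl u ≤ 1
    have := Y_nn hP hB hu
    linarith [u_le hP hB hu]
  th2 u hu := by show u ≤ 2; linarith [u_le hP hB hu]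
  N0 u hu := P_nn hP hB hP.N0 hu
  N1 u hu := by
    show pv d.Nl u ≤ 1
    obtain ⟨T, hT, rfl⟩ := map_mem (U0r hP hB) hu
    have h := hP.N1.t hT
    simp only [val_sub, val_one, val_P] at h
    linarith
  dY u := hasDerivAt_pri _ u
  dN u := hasDerivAt_pri _ u
  oY u _ := le_rfl
  oN u hu := by
    show Real.exp (2 / 3 * u + pv d.Yl u / 3) - 1 ≤ pv d.np u
    have a0 := a_nn hP hB hu
    have y0 := Y_nn hP hB hu
    have u8 := u_le hP hB hu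
    have h1 := exp_t5 (z := 2 / 3 * u + pv d.Yl u / 3) (by linarith [hu.1]) (by linarith)
    obtain ⟨T, hT, rfl⟩ := map_mem (U0r hP hB) hu
    have h := hP.oN.t hT
    simp only [UDat.oN, val_sub, val_add, val_mul, val_P, val_T5, val_one, val_uE, val_num] at h
    have e : ((2 : ℤ) : ℝ) / ((3 : ℕ) : ℝ) * ((d.U0 : ℝ) * T) + ((1 : ℤ) : ℝ) / ((3 : ℕ) : ℝ)
        * pv d.Yl ((d.U0 : ℝ) * T) = 2 / 3 * ((d.U0 : ℝ) * T) + pv d.Yl ((d.U0 : ℝ) * T) / 3 := by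
      push_cast
      ring
    rw [e] at h
    linarith
  hg u hu := g_le hP hB hu
  hc u hu := c_le hP hB hu
  hc3 u hu := by
    show pv d.c u / 3 ≤ (1 - (u - pv d.Yl u)) * (1 + 2 / 3 * (u - pv d.Yl u))
    obtain ⟨T, hT, rfl⟩ := map_mem (U0r hP hB) hu
    have h := hP.c3c.t hT
    simp only [ec3c, val_sub, val_add, val_mul, val_P, val_one, val_aE, val_uE, val_num] at h
    push_cast at h
    linarith
  hlam u hu := lam_le hP hB hu
  sl0 u hu := P_nn hP hB hP.sl0 hu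
  hsl u hu := by
    show pv d.lam u ≤ pv d.sl u ^ 2
    obtain ⟨T, hT, rfl⟩ := map_mem (U0r hP hB) hu
    have h := hP.sl.t hT
    simp only [esl, val_sub, val_pow, val_P] at h
    linarith
  ss0 u hu := by
    show 0 ≤ pv d.ss u
    have h1 := ss_le hP hB hu
    have := (Real.exp_pos (pv d.Yl u + (u - pv d.Yl u) / 2 + (u - pv d.Yl u) ^ 2 / 8)).le
    linarith
  hss u hu := by
    show Real.exp (2 * pv d.Yl u + ((u - pv d.Yl u) + (u - pv d.Yl u) ^ 2 / 4)) / 4 ≤ pv d.ss u ^ 2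
    have h1 := ss_le hP hB hu
    have h2 := (Real.exp_pos (pv d.Yl u + (u - pv d.Yl u) / 2 + (u - pv d.Yl u) ^ 2 / 8)).le
    have h3 := pow_le_pow_left₀ h2 h1 2
    rw [← Real.exp_nat_mul] at h3
    have e : ((2 : ℕ) : ℝ) * (pv d.Yl u + (u - pv d.Yl u) / 2 + (u - pv d.Yl u) ^ 2 / 8)
        = 2 * pv d.Yl u + ((u - pv d.Yl u) + (u - pv d.Yl u) ^ 2 / 4) := by
      push_cast
      ring
    rw [e] at h3
    nlinarith
  lA0 u hu := P_nn hP hB hP.lA0 hu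
  hlA u hu k hk l hl := lA_le hP hB hu hk hl
  sA0 u hu := P_nn hP hB hP.sA0 hu
  hsA u hu k hk l hl := sA_le hP hB hu hk hl
  FA0 u hu := P_nn hP hB hP.FA0 hu
  hFA u hu := by
    show pv d.lA u * pv d.sA u ≤ pv d.FA u ^ 2
    obtain ⟨T, hT, rfl⟩ := map_mem (U0r hP hB) hu
    have h := hP.FA.t hT
    simp only [eFA, val_sub, val_mul, val_pow, val_P] at h
    linarith
  hRb u hu := by
    show pv d.g u ^ 2 * (1 + pv d.c u * (2 / 3)) ≤ pv d.gg u + 2 / 3 * pv d.gc u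
    have h1 := gg_le hP hB hu
    have h2 := gc_le hP hB hu
    linarith
  rd0 u hu := by
    show (pv d.gg u + 2 / 3 * pv d.gc u) / 2 ≤ pv d.rd u
    obtain ⟨T, hT, rfl⟩ := map_mem (U0r hP hB) hu
    have h := hP.rd0.t hT
    simp only [erd0, val_sub, val_mul, val_P, val_eRb, val_num] at h
    have e : d.us.Rb ((d.U0 : ℝ) * T) = pv d.gg ((d.U0 : ℝ) * T)
        + 2 / 3 * pv d.gc ((d.U0 : ℝ) * T) := rfl
    rw [e] at h
    push_cast at h
    linarith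
  hrd u hu v hv := rd_le hP hB hu hv
  c30 u hu := P_nn hP hB hP.c30 hu
  hψ u hu v hv := psi_le hP hB hu hv
  dGp u := hasDerivAt_pri _ u
  dGm u := hasDerivAt_pri _ u
  dPf u := hasDerivAt_pri _ u
  dMf u := hasDerivAt_pri _ u
  dW u := hasDerivAt_pri _ u
  dV u := hasDerivAt_pri _ u
  dU u := hasDerivAt_pri _ u
  dQ u := hasDerivAt_pri _ u
  dI0 u := (hasDerivAt_pri _ u).add ((hasDerivAt_pri _ u).const_mul _)
  dI1 u := (hasDerivAt_pri _ u).const_mul _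
  Gp0 u hu := P_nn hP hB hP.Gp0 hu
  Gm0 u hu := P_nn hP hB hP.Gm0 hu
  Pf0 u hu := P_nn hP hB hP.Pf0 hu
  Mf0 u hu := P_nn hP hB hP.Mf0 hu
  W0 u hu := P_nn hP hB hP.W0 hu
  V0 u hu := P_nn hP hB hP.V0 hu
  Uu0 u hu := P_nn hP hB hP.Uu0 hu
  Q0 := by show 0 ≤ pv (pri d.Qd) 0; rw [pri_zero]
  I00 := by show 0 ≤ pv (pri d.gg) 0 + 2 / 3 * pv (pri d.gc) 0; rw [pri_zero, pri_zero]; norm_num
  I10 := by show 0 ≤ 1 / 3 * pv (pri d.gc) 0; rw [pri_zero]; norm_num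
  oGp u hu := by
    obtain ⟨T, hT, rfl⟩ := map_mem (U0r hP hB) hu
    have h := hP.oGp.t hT
    simp only [UDat.oGp, val_sub, val_add, val_mul, val_pow, val_two, val_P, val_eRL] at h
    show pv d.lA _ + 2 * (pv d.lam _ * pv (pri d.Gmd) _) + (d.us.Rb _ + pv d.lam _)
      * (pv (pri d.Gpd) _ ^ 2 + pv (pri d.Gmd) _ ^ 2) ≤ pv d.Gpd _
    linarith
  oGm u hu := by
    obtain ⟨T, hT, rfl⟩ := map_mem (U0r hP hB) hu
    have h := hP.oGm.t hT
    simp only [UDat.oGm, val_sub, val_add, val_mul, val_two, val_P, val_eRL] at h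
    show 2 * pv d.Nl _ + 2 * (pv d.lam _ * pv (pri d.Gpd) _) + 2 * ((d.us.Rb _ + pv d.lam _)
      * (pv (pri d.Gpd) _ * pv (pri d.Gmd) _)) ≤ pv d.Gmd _
    linarith
  oPf u hu := by
    obtain ⟨T, hT, rfl⟩ := map_mem (U0r hP hB) hu
    have h := hP.oPf.t hT
    simp only [UDat.oPf, val_sub, val_add, val_mul, val_P, val_eRL] at h
    show pv d.FA _ + (pv d.ss _ * pv d.sl _ * pv (pri d.Gmd) _ + pv (pri d.Mfd) _ * pv d.lam _)
      + (d.us.Rb _ + pv d.lam _) * (pv (pri d.Pfd) _ * pv (pri d.Gpd) _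
        + pv (pri d.Mfd) _ * pv (pri d.Gmd) _) ≤ pv d.Pfd _
    linarith
  oMf u hu := by
    obtain ⟨T, hT, rfl⟩ := map_mem (U0r hP hB) hu
    have h := hP.oMf.t hT
    simp only [UDat.oMf, val_sub, val_add, val_mul, val_P, val_eRL] at h
    show pv d.Nl _ + (pv d.ss _ * pv d.sl _ * pv (pri d.Gpd) _ + pv (pri d.Pfd) _ * pv d.lam _)
      + (d.us.Rb _ + pv d.lam _) * (pv (pri d.Mfd) _ * pv (pri d.Gpd) _
        + pv (pri d.Pfd) _ * pv (pri d.Gmd) _) ≤ pv d.Mfd _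
    linarith
  oW u hu := by
    obtain ⟨T, hT, rfl⟩ := map_mem (U0r hP hB) hu
    have h := hP.oW.t hT
    simp only [UDat.oW, val_sub, val_mul, val_P, val_num] at h
    show pv d.sl _ * pv d.be _ * pv d.g _ / 2 ≤ pv d.Wd _
    push_cast at h
    linarith
  oV u hu := by
    obtain ⟨T, hT, rfl⟩ := map_mem (U0r hP hB) hu
    have h := hP.oV.t hT
    simp only [UDat.oV, val_sub, val_add, val_mul, val_P, val_eRL, val_eWU, val_edT] at h
    show (pv d.lam _ + (d.us.Rb _ + pv d.lam _) * pv (pri d.Gmd) _) * (d.us.W _ + d.us.Uu _)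
      + pv (pri d.Gpd) _ * d.us.dT _ ≤ pv d.Vd _
    linarith
  oU u hu := by
    obtain ⟨T, hT, rfl⟩ := map_mem (U0r hP hB) hu
    have h := hP.oU.t hT
    simp only [UDat.oU, val_sub, val_add, val_mul, val_P, val_eRL, val_eWU, val_edT, val_ec1] at h
    show pv d.lam _ * (d.us.c1 _ * pv (pri d.Vd) _)
      + (d.us.Rb _ + pv d.lam _) * pv (pri d.Gpd) _ * (d.us.W _ + d.us.Uu _)
      + pv (pri d.Gmd) _ * d.us.dT _ ≤ pv d.Ud _
    linarith
  oQ u hu := by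
    obtain ⟨T, hT, rfl⟩ := map_mem (U0r hP hB) hu
    have h := hP.oQ.t hT
    simp only [UDat.oQ, val_sub, val_add, val_mul, val_P, val_eRL, val_eWU, val_edT, val_ec1,
      val_two, val_num] at h
    show pv d.ss _ * pv d.be _ * pv d.g _ / 2 + pv d.sl _ * pv d.be _ * pv d.g _ / 4
      + (pv d.ss _ * pv d.sl _ * (d.us.c1 _ * pv (pri d.Vd) _)
        + (d.us.Rb _ + pv d.lam _) * pv (pri d.Pfd) _ * (d.us.W _ + d.us.Uu _)
        + pv (pri d.Mfd) _ * d.us.dT _)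
      + 2 * (d.us.W _ + d.us.Uu _) * d.us.dT _ ≤ pv d.Qd _
    push_cast at h
    linarith
  oI0 u hu := by
    show pv d.g u ^ 2 * (1 + pv d.c u * (2 / 3)) ≤ pv d.gg u + 2 / 3 * pv d.gc u
    have h1 := gg_le hP hB hu
    have h2 := gc_le hP hB hu
    linarith
  oI1 u hu := by
    show pv d.g u ^ 2 * (pv d.c u / 3) ≤ 1 / 3 * pv d.gc u
    have h2 := gc_le hP hB hu
    linarith
  hm u hu := by
    show Real.sqrt 2 * pv (pri d.Vd) u ≤ (d.m : ℝ)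
    have v0 := P_nn hP hB hP.V0 hu
    have h2 : Real.sqrt 2 ≤ 14143 / 10000 := by
      rw [Real.sqrt_le_left (by norm_num)]
      norm_num
    refine (mul_le_mul_of_nonneg_right h2 v0).trans ?_
    obtain ⟨T, hT, rfl⟩ := map_mem (U0r hP hB) hu
    have h := hP.m.t hT
    simp only [em, val_sub, val_mul, val_P, val_qc, val_num] at h
    push_cast at h
    linarith
  δ0 u hu := P_nn hP hB hP.de0 hu
  hδ u hu x hx := de_le hP hB hu hx

end

end UDat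

end Pool.Agent.RX.RCE
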